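import Mathlib

/-!
Division of analytic functions by polynomials, and the zeros in a smaller disc.
-/

open Complex Filter Topology Metric

namespace Pool.Agent.N279.MBP

lemma diffOn_analyticAt {f : ℂ → ℂ} (hf : DifferentiableOn ℂ f (ball 0 1)) {z : ℂ} (hz : z ∈ ball (0:ℂ) 1) :
    AnalyticAt ℂ f z := hf.analyticAt (isOpen_ball.mem_nhds hz)

lemma diffOn_analyticOnNhd {f : ℂ → ℂ} (hf : DifferentiableOn ℂ f (ball 0 1)) :
    AnalyticOnNhd ℂ f (ball 0 1) := fun _ hz => diffOn_analyticAt hf hz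

/-- the polynomial with the given list of roots -/
noncomputable def PL (l : List ℂ) (z : ℂ) : ℂ := (l.map fun a => z - a).prod

lemma PL_cons (a : ℂ) (l : List ℂ) (z : ℂ) : PL (a :: l) z = (z - a) * PL l z := by
  unfold PL
  simp

lemma PL_nil (z : ℂ) : PL [] z = 1 := by
  unfold PL
  simp

lemma PL_differentiable (l : List ℂ) : Differentiable ℂ (PL l) := by
  induction l with
  | nil =>
    have : PL [] = fun _ => 1 := funext PL_nil
    rw [this]; exact differentiable_const _
  | cons a l ih =>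
    have : PL (a :: l) = fun z => (z - a) * PL l z := funext (PL_cons a l)
    rw [this]
    exact (differentiable_id.sub_const a).mul ih

lemma div_list (l : List ℂ) (hl : ∀ a ∈ l, a ∈ ball (0:ℂ) 1) :
    ∀ f : ℂ → ℂ, DifferentiableOn ℂ f (ball 0 1) →
    (∀ z ∈ ball (0:ℂ) 1, (l.count z : ℕ∞) ≤ analyticOrderAt f z) →
    ∃ h : ℂ → ℂ, DifferentiableOn ℂ h (ball 0 1) ∧ ∀ z ∈ ball (0:ℂ) 1, f z = PL l z * h z := by
  induction l with
  | nil =>
    intro f hf _
    exact ⟨f, hf, fun z _ => by rw [PL_nil, one_mul]⟩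
  | cons a l ih =>
    intro f hf hord
    have ha : a ∈ ball (0:ℂ) 1 := hl a (by simp)
    have hfa : f a = 0 := by
      apply apply_eq_zero_of_analyticOrderAt_ne_zero (𝕜 := ℂ)
      intro h
      have h1 := hord a ha
      rw [h, List.count_cons_self] at h1
      have h2 : ((l.count a + 1 : ℕ) : ℕ∞) ≠ 0 := by exact_mod_cast Nat.succ_ne_zero (l.count a)
      exact h2 (le_antisymm h1 bot_le)
    set f1 := dslope f a with hf1
    have hf1d : DifferentiableOn ℂ f1 (ball 0 1) :=
      (Complex.differentiableOn_dslope (isOpen_ball.mem_nhds ha)).2 hf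
    have hfeq : f = (fun z => z - a) * f1 := by
      funext z
      have h1 := sub_smul_dslope f a z
      rw [smul_eq_mul, hfa, sub_zero] at h1
      exact h1.symm
    obtain ⟨h, hh, hheq⟩ := ih (fun b hb => hl b (List.mem_cons_of_mem _ hb)) f1 hf1d (fun z hz => by
      have h1 := hord z hz
      rw [hfeq, analyticOrderAt_mul (by fun_prop) (diffOn_analyticAt hf1d hz), List.count_cons] at h1
      by_cases hza : z = a
      · subst hza
        rw [analyticOrderAt_id_sub_const_self] at h1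
        simp only [beq_self_eq_true, if_true, Nat.cast_add, Nat.cast_one] at h1
        rw [add_comm] at h1
        exact (ENat.add_le_add_iff_left (by simp)).1 h1
      · rw [analyticOrderAt_id_sub_const_of_ne hza, zero_add] at h1
        have h2 : (a == z) = false := by
          rw [beq_eq_false_iff_ne]; exact fun h => hza h.symm
        rw [h2] at h1
        simpa using h1)
    refine ⟨h, hh, fun z hz => ?_⟩
    rw [PL_cons, mul_assoc, ← hheq z hz]
    exact congrFun hfeq z

lemma finite_zeros {f : ℂ → ℂ} (hf : DifferentiableOn ℂ f (ball 0 1)) {z₁ : ℂ} (hz₁ : z₁ ∈ ball (0:ℂ) 1)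
    (hne : f z₁ ≠ 0) {R : ℝ} (hR : R < 1) : {z | z ∈ closedBall (0:ℂ) R ∧ f z = 0}.Finite := by
  by_contra hinf
  obtain ⟨x, hx, hacc⟩ := Set.Infinite.exists_accPt_of_subset_isCompact (K := closedBall (0:ℂ) R) hinf
    (isCompact_closedBall _ _) fun z hz => hz.1
  have hxb : x ∈ ball (0:ℂ) 1 := closedBall_subset_ball hR hx
  have hfreq : ∃ᶠ z in 𝓝[≠] x, f z = 0 := by
    have h1 := accPt_iff_frequently_nhdsNE.1 hacc
    exact h1.mono fun z hz => hz.2
  have h2 := (diffOn_analyticOnNhd hf).eqOn_zero_of_preconnected_of_frequently_eq_zero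
    (convex_ball (0:ℂ) 1).isPreconnected hxb hfreq
  exact hne (h2 hz₁)

lemma order_ne_top {f : ℂ → ℂ} (hf : DifferentiableOn ℂ f (ball 0 1)) {z₁ : ℂ} (hz₁ : z₁ ∈ ball (0:ℂ) 1)
    (hne : f z₁ ≠ 0) {z : ℂ} (hz : z ∈ ball (0:ℂ) 1) : analyticOrderAt f z ≠ ⊤ := by
  intro h
  have h1 := analyticOrderAt_eq_top.1 h
  have h2 := (diffOn_analyticOnNhd hf).eqOn_zero_of_preconnected_of_eventuallyEq_zero
    (convex_ball (0:ℂ) 1).isPreconnected hz h1
  exact hne (h2 hz₁)

/-- the list of zeros in a closed disc -/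
lemma exists_list {f : ℂ → ℂ} (hf : DifferentiableOn ℂ f (ball 0 1)) {z₁ : ℂ} (hz₁ : z₁ ∈ ball (0:ℂ) 1)
    (hne : f z₁ ≠ 0) {R : ℝ} (hR : R < 1) :
    ∃ l : List ℂ, (∀ a ∈ l, a ∈ ball (0:ℂ) 1) ∧ (∀ z ∈ ball (0:ℂ) 1, (l.count z : ℕ∞) ≤ analyticOrderAt f z) ∧
      ∀ z ∈ closedBall (0:ℂ) R, (l.count z : ℕ∞) = analyticOrderAt f z := by
  classical
  set S := (finite_zeros hf hz₁ hne hR).toFinset with hS
  set m : Multiset ℂ := ∑ a ∈ S, (analyticOrderNatAt f a) • ({a} : Multiset ℂ) with hm
  have hcount : ∀ z, m.count z = if z ∈ S then analyticOrderNatAt f z else 0 := by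
    intro z
    rw [hm, Multiset.count_sum']
    have : ∀ a ∈ S, Multiset.count z (analyticOrderNatAt f a • ({a} : Multiset ℂ)) =
        if a = z then analyticOrderNatAt f z else 0 := by
      intro a _
      rw [Multiset.count_nsmul, Multiset.count_singleton]
      by_cases h : a = z
      · subst h; simp
      · rw [if_neg (fun h' => h h'.symm), if_neg h, mul_zero]
    rw [Finset.sum_congr rfl this, Finset.sum_ite_eq']
  have hSmem : ∀ z, z ∈ S ↔ z ∈ closedBall (0:ℂ) R ∧ f z = 0 := by
    intro z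
    rw [hS, Set.Finite.mem_toFinset]
    rfl
  refine ⟨m.toList, ?_, ?_, ?_⟩
  · intro a ha
    rw [Multiset.mem_toList] at ha
    have h1 : 0 < m.count a := Multiset.count_pos.2 ha
    rw [hcount] at h1
    by_cases h : a ∈ S
    · exact closedBall_subset_ball hR ((hSmem a).1 h).1
    · rw [if_neg h] at h1; omega
  · intro z hz
    have h0 : m.toList.count z = m.count z := by
      rw [← Multiset.coe_count, Multiset.coe_toList]
    rw [h0, hcount]
    by_cases h : z ∈ S
    · rw [if_pos h, Nat.cast_analyticOrderNatAt (order_ne_top hf hz₁ hne hz)]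
    · rw [if_neg h]; simp
  · intro z hz
    have h0 : m.toList.count z = m.count z := by
      rw [← Multiset.coe_count, Multiset.coe_toList]
    have hzb : z ∈ ball (0:ℂ) 1 := closedBall_subset_ball hR hz
    rw [h0, hcount]
    by_cases h : z ∈ S
    · rw [if_pos h, Nat.cast_analyticOrderNatAt (order_ne_top hf hz₁ hne hzb)]
    · rw [if_neg h]
      have h1 : f z ≠ 0 := fun h2 => h ((hSmem z).2 ⟨hz, h2⟩)
      rw [((diffOn_analyticAt hf hzb).analyticOrderAt_eq_zero).2 h1]
      simp

end Pool.Agent.N279.MBP
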