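import Pool.Agent.N279.MBP.Energy2

/-!
Finite Blaschke products with prescribed critical points.
-/

open Finset Complex Polynomial
open scoped ComplexConjugate

namespace Pool.Agent.N279.MBP

variable {n : ℕ}

lemma conj_unimod {a : ℂ} (ha : ‖a‖ = 1) : conj a = a⁻¹ := by
  rw [Complex.inv_def, Complex.normSq_eq_norm_sq, ha]; simp

lemma ne_zero_of_unimod {a : ℂ} (ha : ‖a‖ = 1) : a ≠ 0 := norm_ne_zero_iff.1 (by rw [ha]; norm_num)

lemma sq_unimod {a b : ℂ} (ha : ‖a‖ = 1) (hb : ‖b‖ = 1) : (a - b) ^ 2 = -(a * b) * ((‖a - b‖ ^ 2 : ℝ) : ℂ) := by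
  have ha0 := ne_zero_of_unimod ha
  have hb0 := ne_zero_of_unimod hb
  push_cast
  rw [← Complex.mul_conj', map_sub, conj_unimod ha, conj_unimod hb]
  field_simp
  ring

/-- the weights -/
noncomputable def mj (w : Fin n → ℂ) (t : Fin (n + 1) → ℂ) (j : Fin (n + 1)) : ℝ :=
  (∏ k, ‖t j - w k‖ ^ 2) / (2 * ∏ i ∈ univ.erase j, ‖t j - t i‖ ^ 2)

/-- the unimodular constant -/
noncomputable def kap (t : Fin (n + 1) → ℂ) : ℂ := (-1) ^ n * ∏ i, t i

section fixed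

variable {w : Fin n → ℂ} {t : Fin (n + 1) → ℂ}

lemma mj_pos (hw : ∀ k, ‖w k‖ < 1) (ht : t ∈ KS n) (hinj : Function.Injective t) (j : Fin (n + 1)) : 0 < mj w t j := by
  unfold mj
  refine div_pos ?_ (mul_pos two_pos ?_)
  · refine prod_pos fun k _ => ?_
    have := norm_pos_iff.2 (sub_ne_of_norm (mem_KS.1 ht j) (hw k))
    positivity
  · refine prod_pos fun i hi => ?_
    have := norm_pos_iff.2 (sub_ne_zero.2 fun h => (mem_erase.1 hi).1 (hinj h).symm)
    positivity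

lemma Uj_sq_unimod (ht : t ∈ KS n) (j : Fin (n + 1)) {z : ℂ} (hz : ‖z‖ = 1) :
    t j * (Uj t j).eval z ^ 2 = (-z) ^ n * (∏ i, t i) * ((‖(Uj t j).eval z‖ ^ 2 : ℝ) : ℂ) := by
  unfold Uj
  rw [eval_prod, ← prod_pow, norm_prod, ← prod_pow]
  simp only [eval_sub, eval_X, eval_C]
  rw [prod_congr rfl fun i _ => sq_unimod hz (mem_KS.1 ht i), prod_mul_distrib, ← mul_prod_erase univ t (mem_univ j)]
  have h1 : ∏ i ∈ univ.erase j, -(z * t i) = (-z) ^ n * ∏ i ∈ univ.erase j, t i := by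
    have h2 : ∀ i ∈ univ.erase j, -(z * t i) = (-z) * t i := fun i _ => by ring
    rw [prod_congr rfl h2, prod_mul_distrib, prod_const]
    simp
  rw [h1]
  push_cast
  ring

lemma Np_unimod (w : Fin n → ℂ) {z : ℂ} (hz : ‖z‖ = 1) :
    (Np w).eval z = z ^ n * ((∏ k, ‖z - w k‖ ^ 2 : ℝ) : ℂ) := by
  unfold Np Wp Ws
  rw [eval_mul, eval_prod, eval_prod, ← prod_mul_distrib]
  have hz0 := ne_zero_of_unimod hz
  have h1 : ∀ k : Fin n, (X - C (w k)).eval z * (1 - C (conj (w k)) * X).eval z = z * ((‖z - w k‖ ^ 2 : ℝ) : ℂ) := by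
    intro k
    simp only [eval_sub, eval_X, eval_C, eval_one, eval_mul]
    push_cast
    rw [← Complex.mul_conj', map_sub, conj_unimod hz]
    field_simp
  rw [prod_congr rfl fun k _ => h1 k, prod_mul_distrib, prod_const]
  push_cast
  simp

lemma kap_cj (hw : ∀ k, ‖w k‖ < 1) (ht : t ∈ KS n) (hinj : Function.Injective t) (j : Fin (n + 1)) :
    kap t * cj w t j = 2 * mj w t j * t j := by
  have htj := mem_KS.1 ht j
  have htj0 := ne_zero_of_unimod htj
  have hU := Uj_eval_ne hinj j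
  have h1 := Uj_sq_unimod ht j htj
  have h2 := Np_unimod w htj
  have hUn : ‖(Uj t j).eval (t j)‖ ≠ 0 := norm_ne_zero_iff.2 hU
  have hT : ∏ i, t i ≠ 0 := prod_ne_zero_iff.2 fun i _ => ne_zero_of_unimod (mem_KS.1 ht i)
  have hm : mj w t j = (∏ k, ‖t j - w k‖ ^ 2) / (2 * ‖(Uj t j).eval (t j)‖ ^ 2) := by
    unfold mj Uj
    rw [eval_prod, norm_prod, ← prod_pow]
    simp
  unfold cj kap
  rw [h2, hm]
  have hUnc : ((‖(Uj t j).eval (t j)‖ ^ 2 : ℝ) : ℂ) ≠ 0 := by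
    exact_mod_cast pow_ne_zero 2 hUn
  have h3 : (Uj t j).eval (t j) ^ 2 = (-(t j)) ^ n * (∏ i, t i) * ((‖(Uj t j).eval (t j)‖ ^ 2 : ℝ) : ℂ) / t j := by
    rw [← h1]; field_simp
  rw [h3, neg_pow (t j) n]
  have h4 : ((-1 : ℂ)) ^ n ≠ 0 := pow_ne_zero _ (by norm_num)
  set S := ‖(Uj t j).eval (t j)‖ ^ 2 with hS
  set R : ℝ := ∏ k, ‖t j - w k‖ ^ 2 with hR
  have h5 : ((R / (2 * S) : ℝ) : ℂ) = (R : ℂ) / (2 * (S : ℂ)) := by push_cast; ring
  rw [h5]
  have h6 : (((-1 : ℂ)) ^ n) * ((-1 : ℂ)) ^ n = 1 := by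
    rw [← mul_pow]; norm_num
  have h7 : t j ^ n ≠ 0 := pow_ne_zero _ htj0
  field_simp

/-- the function with positive real part -/
noncomputable def FF (w : Fin n → ℂ) (t : Fin (n + 1) → ℂ) (z : ℂ) : ℂ := ∑ j, (mj w t j : ℂ) * ((t j + z) / (t j - z))

lemma t_sub_ne (ht : t ∈ KS n) {z : ℂ} (hz : ‖z‖ < 1) (j : Fin (n + 1)) : t j - z ≠ 0 :=
  sub_ne_of_norm (mem_KS.1 ht j) hz

lemma kernel_re' {a z : ℂ} (ha : ‖a‖ = 1) (hz : a - z ≠ 0) : ((a + z) / (a - z)).re = (1 - ‖z‖ ^ 2) / ‖a - z‖ ^ 2 := by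
  have h1 : ‖a - z‖ ^ 2 ≠ 0 := pow_ne_zero _ (norm_ne_zero_iff.2 hz)
  have h2 : (a + z) / (a - z) = (a + z) * conj (a - z) / ((‖a - z‖ ^ 2 : ℝ) : ℂ) := by
    push_cast
    rw [← Complex.mul_conj']
    have : conj (a - z) ≠ 0 := (_root_.map_ne_zero _).2 hz
    field_simp
  rw [h2, Complex.div_ofReal_re]
  congr 1
  have h3 : ‖a‖ ^ 2 = 1 := by rw [ha]; norm_num
  rw [Complex.sq_norm, Complex.normSq_apply] at h3
  rw [Complex.sq_norm, Complex.normSq_apply]
  simp only [mul_re, add_re, add_im, map_sub, sub_re, sub_im, conj_re, conj_im]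
  nlinarith

lemma FF_re (ht : t ∈ KS n) {z : ℂ} (hz : ‖z‖ < 1) :
    (FF w t z).re = (1 - ‖z‖ ^ 2) * ∑ j, mj w t j / ‖t j - z‖ ^ 2 := by
  unfold FF
  rw [Complex.re_sum, mul_sum]
  refine sum_congr rfl fun j _ => ?_
  rw [Complex.re_ofReal_mul, kernel_re' (mem_KS.1 ht j) (t_sub_ne ht hz j)]
  ring

lemma FF_re_pos (hw : ∀ k, ‖w k‖ < 1) (ht : t ∈ KS n) (hinj : Function.Injective t) {z : ℂ} (hz : ‖z‖ < 1) :
    0 < (FF w t z).re := by
  rw [FF_re ht hz]
  have h1 : 0 < 1 - ‖z‖ ^ 2 := by nlinarith [norm_nonneg z]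
  refine mul_pos h1 (sum_pos (fun j _ => ?_) ⟨0, mem_univ _⟩)
  have := mj_pos hw ht hinj j
  have := norm_pos_iff.2 (t_sub_ne ht hz j)
  positivity

lemma FF_hasDerivAt (ht : t ∈ KS n) {z : ℂ} (hz : ‖z‖ < 1) :
    HasDerivAt (FF w t) (∑ j, (mj w t j : ℂ) * (2 * t j / (t j - z) ^ 2)) z := by
  unfold FF
  refine HasDerivAt.fun_sum fun j _ => ?_
  have hne := t_sub_ne ht hz j
  have h1 : HasDerivAt (fun z : ℂ => (t j + z) / (t j - z)) (2 * t j / (t j - z) ^ 2) z := by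
    have h2 : HasDerivAt (fun z : ℂ => t j + z) 1 z := (hasDerivAt_id z).const_add _
    have h3 : HasDerivAt (fun z : ℂ => t j - z) (-1) z := (hasDerivAt_id z).const_sub _
    have h4 := h2.div h3 hne
    have h5 : (1 * (t j - z) - (t j + z) * -1) / (t j - z) ^ 2 = 2 * t j / (t j - z) ^ 2 := by
      congr 1; ring
    rw [h5] at h4
    exact h4
  exact h1.const_mul _

/-- the product of all the squares -/
noncomputable def VV (t : Fin (n + 1) → ℂ) (z : ℂ) : ℂ := ∏ i, (z - t i) ^ 2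

lemma VV_ne (ht : t ∈ KS n) {z : ℂ} (hz : ‖z‖ < 1) : VV t z ≠ 0 := by
  unfold VV
  refine prod_ne_zero_iff.2 fun i _ => pow_ne_zero _ ?_
  have := t_sub_ne ht hz i
  intro h
  apply this
  linear_combination -h

lemma VV_split (t : Fin (n + 1) → ℂ) (j : Fin (n + 1)) (z : ℂ) : VV t z = (t j - z) ^ 2 * (Uj t j).eval z ^ 2 := by
  unfold VV Uj
  rw [← mul_prod_erase univ _ (mem_univ j), eval_prod, ← prod_pow]
  simp only [eval_sub, eval_X, eval_C]
  ring

lemma FF_deriv (hw : ∀ k, ‖w k‖ < 1) (ht : t ∈ KS n) (hinj : Function.Injective t)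
    (hmax : ∀ s ∈ KS n, En w s ≤ En w t) {z : ℂ} (hz : ‖z‖ < 1) :
    HasDerivAt (FF w t) (kap t * (Np w).eval z / VV t z) z := by
  have h := FF_hasDerivAt (w := w) ht hz
  have h1 : ∑ j, (mj w t j : ℂ) * (2 * t j / (t j - z) ^ 2) = kap t * (Np w).eval z / VV t z := by
    rw [eq_div_iff (VV_ne ht hz), partial_fractions hw ht hinj hmax, eval_finsetSum, mul_sum, sum_mul]
    refine sum_congr rfl fun j _ => ?_
    have h2 := kap_cj hw ht hinj j
    rw [VV_split t j z, eval_mul, eval_C, eval_pow, ← mul_assoc (kap t), h2]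
    have := t_sub_ne ht hz j
    field_simp
  rw [h1] at h
  exact h

/-- the sum in the denominator of the boundary quotient -/
noncomputable def SS (w : Fin n → ℂ) (t : Fin (n + 1) → ℂ) (z : ℂ) : ℝ := ∑ j, mj w t j * ‖(Uj t j).eval z‖ ^ 2

lemma SS_pos (hw : ∀ k, ‖w k‖ < 1) (ht : t ∈ KS n) (hinj : Function.Injective t) (z : ℂ) : 0 < SS w t z := by
  unfold SS
  have hnn : ∀ j ∈ (univ : Finset (Fin (n + 1))), 0 ≤ mj w t j * ‖(Uj t j).eval z‖ ^ 2 := fun j _ => by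
    have := mj_pos hw ht hinj j
    positivity
  by_cases h : ∃ j, t j = z
  · obtain ⟨j, hj⟩ := h
    refine lt_of_lt_of_le ?_ (single_le_sum hnn (mem_univ j))
    have h1 := mj_pos hw ht hinj j
    have h2 := norm_pos_iff.2 (Uj_eval_ne hinj j)
    rw [hj] at h2
    positivity
  · push Not at h
    refine lt_of_lt_of_le ?_ (single_le_sum hnn (mem_univ 0))
    have h1 := mj_pos hw ht hinj 0
    have h2 : (Uj t 0).eval z ≠ 0 := by
      unfold Uj
      rw [eval_prod]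
      refine prod_ne_zero_iff.2 fun i _ => ?_
      rw [eval_sub, eval_X, eval_C]
      exact sub_ne_zero.2 (h i).symm
    have h3 := norm_pos_iff.2 h2
    positivity

/-- the boundary quotient -/
noncomputable def QQ (w : Fin n → ℂ) (t : Fin (n + 1) → ℂ) (z : ℂ) : ℝ := ‖(Np w).eval z‖ / (2 * SS w t z)

lemma QQ_continuous (hw : ∀ k, ‖w k‖ < 1) (ht : t ∈ KS n) (hinj : Function.Injective t) : Continuous (QQ w t) := by
  unfold QQ
  refine Continuous.div (by fun_prop) ?_ fun z => (mul_pos two_pos (SS_pos hw ht hinj z)).ne'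
  unfold SS
  fun_prop

lemma kap_norm (ht : t ∈ KS n) : ‖kap t‖ = 1 := by
  unfold kap
  rw [norm_mul, norm_pow, norm_neg, norm_one, one_pow, one_mul, norm_prod]
  exact prod_eq_one fun i _ => mem_KS.1 ht i

lemma QQ_boundary (hw : ∀ k, ‖w k‖ < 1) (ht : t ∈ KS n) (hinj : Function.Injective t)
    (hmax : ∀ s ∈ KS n, En w s ≤ En w t) {z : ℂ} (hz : ‖z‖ = 1) : QQ w t z = 1 := by
  have hS := SS_pos hw ht hinj z
  have h1 : kap t * (Np w).eval z = 2 * ((-z) ^ n * ∏ i, t i) * ((SS w t z : ℝ) : ℂ) := by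
    rw [partial_fractions hw ht hinj hmax, eval_finsetSum, mul_sum]
    unfold SS
    push_cast
    rw [mul_sum]
    refine sum_congr rfl fun j _ => ?_
    rw [eval_mul, eval_C, eval_pow, ← mul_assoc, kap_cj hw ht hinj j, mul_assoc, Uj_sq_unimod ht j hz]
    push_cast
    ring
  have h2 := congrArg norm h1
  rw [norm_mul, kap_norm ht, one_mul, norm_mul, norm_mul, norm_mul, norm_pow, norm_neg, hz, one_pow, one_mul,
    norm_prod, prod_eq_one fun i _ => mem_KS.1 ht i, Complex.norm_real, Real.norm_of_nonneg hS.le] at h2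
  unfold QQ
  rw [h2]
  simp only [Complex.norm_ofNat, mul_one]
  field_simp

/-- the Blaschke product -/
noncomputable def DD (w : Fin n → ℂ) (t : Fin (n + 1) → ℂ) (z : ℂ) : ℂ := (FF w t z - 1) / (FF w t z + 1)

lemma FF_add_one_ne (hw : ∀ k, ‖w k‖ < 1) (ht : t ∈ KS n) (hinj : Function.Injective t) {z : ℂ} (hz : ‖z‖ < 1) :
    FF w t z + 1 ≠ 0 := by
  intro h
  have h1 := congrArg Complex.re h
  have h2 := FF_re_pos hw ht hinj hz
  simp at h1
  linarith

lemma DD_hasDerivAt (hw : ∀ k, ‖w k‖ < 1) (ht : t ∈ KS n) (hinj : Function.Injective t)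
    (hmax : ∀ s ∈ KS n, En w s ≤ En w t) {z : ℂ} (hz : ‖z‖ < 1) :
    HasDerivAt (DD w t) (2 * (kap t * (Np w).eval z / VV t z) / (FF w t z + 1) ^ 2) z := by
  have h := FF_deriv hw ht hinj hmax hz
  have h1 := (h.sub_const 1).div (h.add_const 1) (FF_add_one_ne hw ht hinj hz)
  have h2 : (kap t * (Np w).eval z / VV t z * (FF w t z + 1) - (FF w t z - 1) * (kap t * (Np w).eval z / VV t z)) /
      (FF w t z + 1) ^ 2 = 2 * (kap t * (Np w).eval z / VV t z) / (FF w t z + 1) ^ 2 := by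
    congr 1; ring
  rw [h2] at h1
  exact h1

lemma DD_sq (hw : ∀ k, ‖w k‖ < 1) (ht : t ∈ KS n) (hinj : Function.Injective t) {z : ℂ} (hz : ‖z‖ < 1) :
    1 - ‖DD w t z‖ ^ 2 = 4 * (FF w t z).re / ‖FF w t z + 1‖ ^ 2 := by
  have hne := FF_add_one_ne hw ht hinj hz
  have h1 : ‖FF w t z + 1‖ ^ 2 ≠ 0 := pow_ne_zero _ (norm_ne_zero_iff.2 hne)
  unfold DD
  rw [norm_div, div_pow, eq_div_iff h1, sub_mul, div_mul_cancel₀ _ h1, one_mul, Complex.sq_norm, Complex.sq_norm,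
    Complex.normSq_apply, Complex.normSq_apply]
  simp only [add_re, add_im, sub_re, sub_im, one_re, one_im]
  ring

end fixed

open Metric in
/-- Existence of a finite Blaschke product with prescribed critical points, in the form needed. -/
theorem exists_fbp (w : Fin n → ℂ) (hw : ∀ k, ‖w k‖ < 1) :
    ∃ (D g : ℂ → ℂ) (Q : ℂ → ℝ), DifferentiableOn ℂ D (ball 0 1) ∧ (∀ z ∈ ball (0:ℂ) 1, ‖D z‖ < 1) ∧
      DifferentiableOn ℂ g (ball 0 1) ∧ (∀ z ∈ ball (0:ℂ) 1, g z ≠ 0) ∧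
      (∀ z ∈ ball (0:ℂ) 1, deriv D z = (∏ k, (z - w k)) * g z) ∧ Continuous Q ∧ (∀ z, ‖z‖ = 1 → Q z = 1) ∧
      ∀ z ∈ ball (0:ℂ) 1, (1 - ‖z‖ ^ 2) * ‖deriv D z‖ = Q z * (1 - ‖D z‖ ^ 2) := by
  obtain ⟨t, ht, hinj, hmax⟩ := exists_max w hw
  have hD : ∀ z ∈ ball (0:ℂ) 1, HasDerivAt (DD w t) (2 * (kap t * (Np w).eval z / VV t z) / (FF w t z + 1) ^ 2) z :=
    fun z hz => DD_hasDerivAt hw ht hinj hmax (mem_ball_zero_iff.1 hz)
  have hkap : kap t ≠ 0 := ne_zero_of_unimod (kap_norm ht)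
  refine ⟨DD w t, fun z => 2 * kap t * (Ws w).eval z / (VV t z * (FF w t z + 1) ^ 2), QQ w t,
    fun z hz => (hD z hz).differentiableAt.differentiableWithinAt, fun z hz => ?_, fun z hz => ?_, fun z hz => ?_,
    fun z hz => ?_, QQ_continuous hw ht hinj, fun z hz => QQ_boundary hw ht hinj hmax hz, fun z hz => ?_⟩
  · have hz1 := mem_ball_zero_iff.1 hz
    have h1 := DD_sq hw ht hinj hz1
    have h2 := FF_re_pos hw ht hinj hz1
    have h3 := norm_pos_iff.2 (FF_add_one_ne hw ht hinj hz1)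
    have h4 : 0 < 1 - ‖DD w t z‖ ^ 2 := by rw [h1]; positivity
    nlinarith [norm_nonneg (DD w t z)]
  · have hz1 := mem_ball_zero_iff.1 hz
    have hF := (FF_deriv hw ht hinj hmax hz1).differentiableAt
    have hV := VV_ne ht hz1
    have h1 := FF_add_one_ne hw ht hinj hz1
    have hVd : DifferentiableAt ℂ (VV t) z := by
      unfold VV
      fun_prop
    refine DifferentiableAt.differentiableWithinAt ?_
    refine DifferentiableAt.div ?_ (hVd.mul ((hF.add_const 1).pow 2)) (mul_ne_zero hV (pow_ne_zero _ h1))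
    exact ((Ws w).differentiable z).const_mul _
  · have hz1 := mem_ball_zero_iff.1 hz
    exact div_ne_zero (mul_ne_zero (mul_ne_zero two_ne_zero hkap) (Ws_eval_ne hw hz1.le))
      (mul_ne_zero (VV_ne ht hz1) (pow_ne_zero _ (FF_add_one_ne hw ht hinj hz1)))
  · have hz1 := mem_ball_zero_iff.1 hz
    have hV := VV_ne ht hz1
    have h1 := FF_add_one_ne hw ht hinj hz1
    rw [(hD z hz).deriv]
    have h2 : (Np w).eval z = (∏ k, (z - w k)) * (Ws w).eval z := by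
      unfold Np Wp
      rw [eval_mul, eval_prod]
      simp
    rw [h2]
    field_simp
  · have hz1 := mem_ball_zero_iff.1 hz
    have hV := VV_ne ht hz1
    have h1 := FF_add_one_ne hw ht hinj hz1
    have hS := SS_pos hw ht hinj z
    have hVn : ‖VV t z‖ ≠ 0 := norm_ne_zero_iff.2 hV
    have h1n : ‖FF w t z + 1‖ ≠ 0 := norm_ne_zero_iff.2 h1
    rw [(hD z hz).deriv, DD_sq hw ht hinj hz1, FF_re ht hz1]
    have h3 : ‖VV t z‖ * ∑ j, mj w t j / ‖t j - z‖ ^ 2 = SS w t z := by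
      unfold SS
      rw [mul_sum]
      refine sum_congr rfl fun j _ => ?_
      rw [VV_split t j z, norm_mul, norm_pow, norm_pow]
      have := norm_ne_zero_iff.2 (t_sub_ne ht hz1 j)
      field_simp
    have h4 : ∑ j, mj w t j / ‖t j - z‖ ^ 2 = SS w t z / ‖VV t z‖ := by
      rw [← h3]; field_simp
    rw [h4, norm_div, norm_mul, norm_div, norm_mul, kap_norm ht, one_mul, norm_pow, Complex.norm_ofNat]
    unfold QQ
    field_simp
    ring

end Pool.Agent.N279.MBP
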