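import Pool.Agent.N279.MBP.Local
import Pool.Agent.N279.MBP.Div
import Pool.Agent.N279.MBP.FBP

/-!
The comparison with finite Blaschke products.
-/

open Complex Filter Topology Metric
open scoped ComplexConjugate
open Pool.Agent.Helper203.NS

namespace Pool.Agent.N279.MBP

lemma exists_fbp_list (l : List ℂ) (hl : ∀ a ∈ l, a ∈ ball (0:ℂ) 1) :
    ∃ (D g : ℂ → ℂ) (Q : ℂ → ℝ), DifferentiableOn ℂ D (ball 0 1) ∧ (∀ z ∈ ball (0:ℂ) 1, ‖D z‖ < 1) ∧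
      DifferentiableOn ℂ g (ball 0 1) ∧ (∀ z ∈ ball (0:ℂ) 1, g z ≠ 0) ∧
      (∀ z ∈ ball (0:ℂ) 1, deriv D z = PL l z * g z) ∧ Continuous Q ∧ (∀ z, ‖z‖ = 1 → Q z = 1) ∧
      ∀ z ∈ ball (0:ℂ) 1, (1 - ‖z‖ ^ 2) * ‖deriv D z‖ = Q z * (1 - ‖D z‖ ^ 2) := by
  obtain ⟨D, g, Q, h1, h2, h3, h4, h5, h6, h7, h8⟩ := exists_fbp (fun k : Fin l.length => l.get k)
    (fun k => mem_ball_zero_iff.1 (hl _ (l.get_mem k)))
  refine ⟨D, g, Q, h1, h2, h3, h4, fun z hz => ?_, h6, h7, h8⟩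
  rw [h5 z hz]
  congr 1
  unfold PL
  rw [← List.prod_ofFn]
  congr 1
  apply List.ext_getElem
  · simp
  · intro i _ _
    simp

lemma PL_norm_le (l : List ℂ) (hl : ∀ a ∈ l, a ∈ ball (0:ℂ) 1) {z : ℂ} (hz : ‖z‖ < 1) : ‖PL l z‖ ≤ 2 ^ l.length := by
  induction l with
  | nil => rw [PL_nil]; simp
  | cons a l ih =>
    rw [PL_cons, norm_mul, List.length_cons, pow_succ, mul_comm]
    have h1 := ih fun b hb => hl b (List.mem_cons_of_mem _ hb)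
    have h2 : ‖z - a‖ ≤ 2 := by
      have ha := mem_ball_zero_iff.1 (hl a (by simp))
      refine (norm_sub_le _ _).trans ?_
      linarith
    gcongr

/-- the comparison function -/
noncomputable def rho (C D A : ℂ → ℂ) (b g f : ℂ → ℂ) (z : ℂ) : ℝ :=
  ‖b z / g z‖ * (((1 - ‖C z‖ ^ 2) * (1 - ‖D z‖ ^ 2)) / ((1 - ‖A z‖ ^ 2) * (1 - ‖f z‖ ^ 2)))

lemma rho_nonneg {C D A b g f : ℂ → ℂ} {z : ℂ} (hC : ‖C z‖ < 1) (hD : ‖D z‖ < 1) (hA : ‖A z‖ < 1) (hf : ‖f z‖ < 1) :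
    0 ≤ rho C D A b g f z := by
  unfold rho
  have h1 := one_sub_sq_pos hC
  have h2 := one_sub_sq_pos hD
  have h3 := one_sub_sq_pos hA
  have h4 := one_sub_sq_pos hf
  positivity

lemma rho_continuousOn {C D A b g f : ℂ → ℂ} (hCd : DifferentiableOn ℂ C (ball 0 1)) (hDd : DifferentiableOn ℂ D (ball 0 1))
    (hAd : DifferentiableOn ℂ A (ball 0 1)) (hbd : DifferentiableOn ℂ b (ball 0 1)) (hgd : DifferentiableOn ℂ g (ball 0 1))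
    (hfd : DifferentiableOn ℂ f (ball 0 1)) (hg : ∀ z ∈ ball (0:ℂ) 1, g z ≠ 0)
    (hA : ∀ z ∈ ball (0:ℂ) 1, ‖A z‖ < 1) (hf : ∀ z ∈ ball (0:ℂ) 1, ‖f z‖ < 1) :
    ContinuousOn (rho C D A b g f) (ball 0 1) := by
  unfold rho
  refine ContinuousOn.mul (hbd.continuousOn.div hgd.continuousOn hg).norm ?_
  refine ContinuousOn.div ?_ ?_ fun z hz => ?_
  · exact (continuousOn_const.sub (hCd.continuousOn.norm.pow 2)).mul (continuousOn_const.sub (hDd.continuousOn.norm.pow 2))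
  · exact (continuousOn_const.sub (hAd.continuousOn.norm.pow 2)).mul (continuousOn_const.sub (hfd.continuousOn.norm.pow 2))
  · exact mul_ne_zero (one_sub_sq_pos (hA z hz)).ne' (one_sub_sq_pos (hf z hz)).ne'

/-- boundary bound for the comparison function -/
lemma rho_bound {B C D b g f : ℂ → ℂ} {l : List ℂ} {Q : ℂ → ℝ} {z : ℂ} (hz : z ∈ ball (0:ℂ) 1)
    (hBd : DifferentiableOn ℂ B (ball 0 1)) (hB : ∀ z ∈ ball (0:ℂ) 1, ‖B z‖ < 1) (hC : ‖C z‖ < 1)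
    (hfd : DifferentiableOn ℂ f (ball 0 1)) (hf : ∀ z ∈ ball (0:ℂ) 1, ‖f z‖ < 1)
    (hb : deriv B (C z) * deriv f z = PL l z * b z) (hg : g z ≠ 0) (hD : ‖D z‖ < 1) (hDg : deriv D z = PL l z * g z)
    (hQ : (1 - ‖z‖ ^ 2) * ‖deriv D z‖ = Q z * (1 - ‖D z‖ ^ 2)) :
    rho C D (fun z => B (C z)) b g f z * Q z ≤ 1 := by
  have hz1 := mem_ball_zero_iff.1 hz
  have e1 := one_sub_sq_pos hC
  have e2 := one_sub_sq_pos hD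
  have e3 := one_sub_sq_pos (hB (C z) (mem_ball_zero_iff.2 hC))
  have e4 := one_sub_sq_pos (hf z hz)
  have e5 := one_sub_sq_pos hz1
  have s1 := schwarz_pick_deriv hBd (fun x hx => mem_ball_zero_iff.2 (hB x hx)) hC
  have s2 := schwarz_pick_deriv hfd (fun x hx => mem_ball_zero_iff.2 (hf x hx)) hz1
  have hgn : 0 < ‖g z‖ := norm_pos_iff.2 hg
  have hQ2 : Q z * (1 - ‖D z‖ ^ 2) = (1 - ‖z‖ ^ 2) * (‖PL l z‖ * ‖g z‖) := by rw [← hQ, hDg, norm_mul]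
  have hbn : ‖deriv B (C z)‖ * ‖deriv f z‖ = ‖PL l z‖ * ‖b z‖ := by rw [← norm_mul, hb, norm_mul]
  unfold rho
  simp only
  rw [norm_div]
  have key : ‖b z‖ / ‖g z‖ * ((1 - ‖C z‖ ^ 2) * (1 - ‖D z‖ ^ 2) / ((1 - ‖B (C z)‖ ^ 2) * (1 - ‖f z‖ ^ 2))) * Q z =
      (‖deriv B (C z)‖ * (1 - ‖C z‖ ^ 2) / (1 - ‖B (C z)‖ ^ 2)) * (‖deriv f z‖ * (1 - ‖z‖ ^ 2) / (1 - ‖f z‖ ^ 2)) := by
    have h1 : ‖b z‖ / ‖g z‖ * ((1 - ‖C z‖ ^ 2) * (1 - ‖D z‖ ^ 2) / ((1 - ‖B (C z)‖ ^ 2) * (1 - ‖f z‖ ^ 2))) * Q z =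
        ‖b z‖ / ‖g z‖ * (1 - ‖C z‖ ^ 2) * (Q z * (1 - ‖D z‖ ^ 2)) / ((1 - ‖B (C z)‖ ^ 2) * (1 - ‖f z‖ ^ 2)) := by ring
    have h2 : (‖deriv B (C z)‖ * (1 - ‖C z‖ ^ 2) / (1 - ‖B (C z)‖ ^ 2)) * (‖deriv f z‖ * (1 - ‖z‖ ^ 2) / (1 - ‖f z‖ ^ 2)) =
        (‖deriv B (C z)‖ * ‖deriv f z‖) * (1 - ‖C z‖ ^ 2) * (1 - ‖z‖ ^ 2) / ((1 - ‖B (C z)‖ ^ 2) * (1 - ‖f z‖ ^ 2)) := by
      field_simp
    rw [h1, h2, hQ2, hbn]
    field_simp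
  rw [key]
  have k1 : ‖deriv B (C z)‖ * (1 - ‖C z‖ ^ 2) / (1 - ‖B (C z)‖ ^ 2) ≤ 1 := (div_le_one e3).2 s1
  have k2 : ‖deriv f z‖ * (1 - ‖z‖ ^ 2) / (1 - ‖f z‖ ^ 2) ≤ 1 := (div_le_one e4).2 s2
  have k3 : 0 ≤ ‖deriv f z‖ * (1 - ‖z‖ ^ 2) / (1 - ‖f z‖ ^ 2) := by positivity
  exact mul_le_one₀ k1 k3 k2

/-- the local step applied to one branch -/
lemma branch {B C D a b g f : ℂ → ℂ} {l : List ℂ} (z₀ : ℂ) (hz₀ : z₀ ∈ ball (0:ℂ) 1)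
    (hBd : DifferentiableOn ℂ B (ball 0 1)) (hB : ∀ z ∈ ball (0:ℂ) 1, ‖B z‖ < 1)
    (hCd : DifferentiableOn ℂ C (ball 0 1)) (hC : ∀ z ∈ ball (0:ℂ) 1, ‖C z‖ < 1)
    (hDd : DifferentiableOn ℂ D (ball 0 1)) (hD : ∀ z ∈ ball (0:ℂ) 1, ‖D z‖ < 1)
    (hfd : DifferentiableOn ℂ f (ball 0 1)) (hf : ∀ z ∈ ball (0:ℂ) 1, ‖f z‖ < 1)
    (hbd : DifferentiableOn ℂ b (ball 0 1)) (hgd : DifferentiableOn ℂ g (ball 0 1))
    (ha : deriv B (C z₀) * deriv C z₀ = PL l z₀ * a z₀)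
    (hb : deriv B (C z₀) * deriv f z₀ = PL l z₀ * b z₀) (hg : g z₀ ≠ 0) (hDg : deriv D z₀ = PL l z₀ * g z₀)
    (hP : PL l z₀ ≠ 0) (h1 : 1 < rho C D (fun z => B (C z)) b g f z₀)
    (h2 : rho C D (fun z => B (C z)) a g C z₀ ≤ rho C D (fun z => B (C z)) b g f z₀) {k : ℕ} (hk : k ≠ 0)
    (hmax : ∀ᶠ z in 𝓝 z₀, rho C D (fun z => B (C z)) b g f z ^ k * ‖PL l z‖ ≤
      rho C D (fun z => B (C z)) b g f z₀ ^ k * ‖PL l z₀‖) : False := by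
  have hz1 := mem_ball_zero_iff.1 hz₀
  have e1 := one_sub_sq_pos (hC z₀ hz₀)
  have e2 := one_sub_sq_pos (hD z₀ hz₀)
  have hCz := mem_ball_zero_iff.2 (hC z₀ hz₀)
  have e3 := one_sub_sq_pos (hB (C z₀) hCz)
  have e4 := one_sub_sq_pos (hf z₀ hz₀)
  have hgn : 0 < ‖g z₀‖ := norm_pos_iff.2 hg
  have hPn : 0 < ‖PL l z₀‖ := norm_pos_iff.2 hP
  have hAd : DifferentiableOn ℂ (fun z => B (C z)) (ball 0 1) :=
    hBd.comp hCd fun x hx => mem_ball_zero_iff.2 (hC x hx)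
  have hbn : ‖deriv B (C z₀)‖ * ‖deriv f z₀‖ = ‖PL l z₀‖ * ‖b z₀‖ := by rw [← norm_mul, hb, norm_mul]
  have han : ‖deriv B (C z₀)‖ * ‖deriv C z₀‖ = ‖PL l z₀‖ * ‖a z₀‖ := by rw [← norm_mul, ha, norm_mul]
  have hDn : ‖deriv D z₀‖ = ‖PL l z₀‖ * ‖g z₀‖ := by rw [hDg, norm_mul]
  have hb0 : b z₀ ≠ 0 := by
    intro h
    unfold rho at h1
    rw [h] at h1
    simp at h1
    linarith
  have hbpos : 0 < ‖b z₀‖ := norm_pos_iff.2 hb0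
  have hBpos : 0 < ‖deriv B (C z₀)‖ := by
    rcases (norm_nonneg (deriv B (C z₀))).lt_or_eq with h | h
    · exact h
    · rw [← h, zero_mul] at hbn
      have := mul_pos hPn hbpos
      linarith
  -- hyperbolic derivatives
  have hderivA : deriv (fun z => B (C z)) z₀ = deriv B (C z₀) * deriv C z₀ := by
    have hBat := hBd.differentiableAt (isOpen_ball.mem_nhds hCz)
    have hCat := hCd.differentiableAt (isOpen_ball.mem_nhds hz₀)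
    exact (hBat.hasDerivAt.comp z₀ hCat.hasDerivAt).deriv
  set r : ℝ := ‖deriv B (C z₀)‖ * (1 - ‖C z₀‖ ^ 2) / (1 - ‖B (C z₀)‖ ^ 2) with hr
  have hr0 : 0 < r := by positivity
  have hr1 : r ≤ 1 := (div_le_one e3).2 (schwarz_pick_deriv hBd (fun x hx => mem_ball_zero_iff.2 (hB x hx)) (hC z₀ hz₀))
  have hlA : lamb (fun z => B (C z)) z₀ = r * lamb C z₀ := by
    unfold lamb
    rw [hderivA, norm_mul, hr]
    field_simp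
  have hrf : lamb D z₀ < r * lamb f z₀ := by
    unfold rho at h1
    simp only at h1
    rw [norm_div, div_mul_div_comm, one_lt_div (by positivity)] at h1
    unfold lamb
    rw [hDn, hr, div_mul_div_comm, div_lt_div_iff₀ e2 (by positivity)]
    have : ‖deriv B (C z₀)‖ * (1 - ‖C z₀‖ ^ 2) * ‖deriv f z₀‖ * (1 - ‖D z₀‖ ^ 2) =
        ‖PL l z₀‖ * (‖b z₀‖ * ((1 - ‖C z₀‖ ^ 2) * (1 - ‖D z₀‖ ^ 2))) := by
      calc ‖deriv B (C z₀)‖ * (1 - ‖C z₀‖ ^ 2) * ‖deriv f z₀‖ * (1 - ‖D z₀‖ ^ 2) =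
          (‖deriv B (C z₀)‖ * ‖deriv f z₀‖) * ((1 - ‖C z₀‖ ^ 2) * (1 - ‖D z₀‖ ^ 2)) := by ring
        _ = _ := by rw [hbn]; ring
    rw [this, mul_assoc]
    exact mul_lt_mul_of_pos_left h1 hPn
  have hcf : lamb C z₀ ≤ lamb f z₀ := by
    unfold rho at h2
    simp only at h2
    rw [norm_div, norm_div, div_mul_div_comm, div_mul_div_comm,
      div_le_div_iff₀ (by positivity) (by positivity)] at h2
    unfold lamb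
    rw [div_le_div_iff₀ e1 e4]
    have hpos : 0 < ‖g z₀‖ * (1 - ‖C z₀‖ ^ 2) * (1 - ‖D z₀‖ ^ 2) * (1 - ‖B (C z₀)‖ ^ 2) := by positivity
    have h3 : (‖a z₀‖ * (1 - ‖f z₀‖ ^ 2)) * (‖g z₀‖ * (1 - ‖C z₀‖ ^ 2) * (1 - ‖D z₀‖ ^ 2) * (1 - ‖B (C z₀)‖ ^ 2)) ≤
        (‖b z₀‖ * (1 - ‖C z₀‖ ^ 2)) * (‖g z₀‖ * (1 - ‖C z₀‖ ^ 2) * (1 - ‖D z₀‖ ^ 2) * (1 - ‖B (C z₀)‖ ^ 2)) := by
      calc _ = ‖a z₀‖ * ((1 - ‖C z₀‖ ^ 2) * (1 - ‖D z₀‖ ^ 2)) * (‖g z₀‖ * ((1 - ‖B (C z₀)‖ ^ 2) * (1 - ‖f z₀‖ ^ 2))) := by ring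
        _ ≤ _ := h2
        _ = _ := by ring
    have h4 := le_of_mul_le_mul_right h3 hpos
    have h5 : ‖PL l z₀‖ * (‖a z₀‖ * (1 - ‖f z₀‖ ^ 2)) ≤ ‖PL l z₀‖ * (‖b z₀‖ * (1 - ‖C z₀‖ ^ 2)) := by gcongr
    have h6 : ‖deriv B (C z₀)‖ * (‖deriv C z₀‖ * (1 - ‖f z₀‖ ^ 2)) ≤ ‖deriv B (C z₀)‖ * (‖deriv f z₀‖ * (1 - ‖C z₀‖ ^ 2)) := by
      calc _ = ‖PL l z₀‖ * (‖a z₀‖ * (1 - ‖f z₀‖ ^ 2)) := by rw [← mul_assoc, han]; ring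
        _ ≤ _ := h5
        _ = _ := by rw [← mul_assoc (‖deriv B (C z₀)‖), hbn]; ring
    exact le_of_mul_le_mul_left h6 hBpos
  have hlD0 : 0 ≤ lamb D z₀ := by unfold lamb; positivity
  have hlC0 : 0 ≤ lamb C z₀ := by unfold lamb; positivity
  have hlf0 : 0 ≤ lamb f z₀ := by unfold lamb; positivity
  have hlam : lamb C z₀ ^ 2 + lamb D z₀ ^ 2 < lamb (fun z => B (C z)) z₀ ^ 2 + lamb f z₀ ^ 2 := by
    rw [hlA]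
    have h3 : lamb D z₀ ^ 2 < (r * lamb f z₀) ^ 2 := by gcongr
    have h4 : 0 ≤ (1 - r ^ 2) * (lamb f z₀ ^ 2 - lamb C z₀ ^ 2) := by
      apply mul_nonneg
      · nlinarith
      · nlinarith
    nlinarith
  refine no_local_max (Ψ := fun z => PL l z * (b z / g z) ^ k) ?_ ?_ (diffOn_analyticAt hCd hz₀) (diffOn_analyticAt hDd hz₀)
    (diffOn_analyticAt hAd hz₀) (diffOn_analyticAt hfd hz₀) (hC z₀ hz₀) (hD z₀ hz₀) (hB _ hCz) (hf z₀ hz₀) hk hlam ?_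
  · exact ((PL_differentiable l).analyticAt z₀).mul
      (((diffOn_analyticAt hbd hz₀).div (diffOn_analyticAt hgd hz₀) hg).pow k)
  · exact mul_ne_zero hP (pow_ne_zero _ (div_ne_zero hb0 hg))
  · have hrw : ∀ z, ‖PL l z * (b z / g z) ^ k‖ * (((1 - ‖C z‖ ^ 2) * (1 - ‖D z‖ ^ 2)) /
        ((1 - ‖B (C z)‖ ^ 2) * (1 - ‖f z‖ ^ 2))) ^ k = rho C D (fun z => B (C z)) b g f z ^ k * ‖PL l z‖ := by
      intro z
      unfold rho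
      rw [norm_mul, norm_pow, mul_pow]
      ring
    filter_upwards [hmax] with z hz
    rw [hrw, hrw]
    exact hz

end Pool.Agent.N279.MBP
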