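import Pool.Agent.N279.MBP.Compare

/-!
The comparison principle.
-/

open Complex Filter Topology Metric
open scoped ComplexConjugate
open Pool.Agent.Helper203.NS

namespace Pool.Agent.N279.MBP

theorem compare {B C D a b g f : ℂ → ℂ} {l : List ℂ} {Q : ℂ → ℝ} (hl : ∀ a ∈ l, a ∈ ball (0:ℂ) 1)
    (hBd : DifferentiableOn ℂ B (ball 0 1)) (hB : ∀ z ∈ ball (0:ℂ) 1, ‖B z‖ < 1)
    (hCd : DifferentiableOn ℂ C (ball 0 1)) (hC : ∀ z ∈ ball (0:ℂ) 1, ‖C z‖ < 1)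
    (hDd : DifferentiableOn ℂ D (ball 0 1)) (hD : ∀ z ∈ ball (0:ℂ) 1, ‖D z‖ < 1)
    (hfd : DifferentiableOn ℂ f (ball 0 1)) (hf : ∀ z ∈ ball (0:ℂ) 1, ‖f z‖ < 1)
    (had : DifferentiableOn ℂ a (ball 0 1))
    (hbd : DifferentiableOn ℂ b (ball 0 1)) (hgd : DifferentiableOn ℂ g (ball 0 1))
    (ha : ∀ z ∈ ball (0:ℂ) 1, deriv B (C z) * deriv C z = PL l z * a z)
    (hb : ∀ z ∈ ball (0:ℂ) 1, deriv B (C z) * deriv f z = PL l z * b z) (hg : ∀ z ∈ ball (0:ℂ) 1, g z ≠ 0)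
    (hDg : ∀ z ∈ ball (0:ℂ) 1, deriv D z = PL l z * g z)
    (hQc : Continuous Q) (hQ1 : ∀ z, ‖z‖ = 1 → Q z = 1)
    (hQ : ∀ z ∈ ball (0:ℂ) 1, (1 - ‖z‖ ^ 2) * ‖deriv D z‖ = Q z * (1 - ‖D z‖ ^ 2))
    {z₁ : ℂ} (hz₁ : z₁ ∈ ball (0:ℂ) 1) (hP1 : PL l z₁ ≠ 0) : rho C D (fun z => B (C z)) b g f z₁ ≤ 1 := by
  by_contra hcon
  push Not at hcon
  have hA : ∀ z ∈ ball (0:ℂ) 1, ‖B (C z)‖ < 1 := fun z hz => hB _ (mem_ball_zero_iff.2 (hC z hz))
  have hAd : DifferentiableOn ℂ (fun z => B (C z)) (ball 0 1) :=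
    hBd.comp hCd fun x hx => mem_ball_zero_iff.2 (hC x hx)
  set ρf := rho C D (fun z => B (C z)) b g f with hρf
  set ρC := rho C D (fun z => B (C z)) a g C with hρC
  have hPn : 0 < ‖PL l z₁‖ := norm_pos_iff.2 hP1
  obtain ⟨n, hn⟩ := pow_unbounded_of_one_lt ((2:ℝ) ^ l.length / ‖PL l z₁‖) hcon
  set k := n + 1 with hk
  have hkne : k ≠ 0 := by omega
  set η := ρf z₁ ^ k * ‖PL l z₁‖ with hη
  have hη2 : (2:ℝ) ^ l.length < η := by
    rw [div_lt_iff₀ hPn] at hn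
    refine hn.trans_le ?_
    rw [hη, hk, pow_succ]
    have : 0 < ρf z₁ ^ n := pow_pos (by linarith) n
    have : ρf z₁ ^ n ≤ ρf z₁ ^ n * ρf z₁ := by nlinarith
    gcongr
  have h2pos : (0:ℝ) < 2 ^ l.length := by positivity
  have hη0 : 0 < η := h2pos.trans hη2
  set ψ : ℂ → ℝ := fun z => (max (ρf z) (ρC z)) ^ k * ‖PL l z‖ with hψ
  have hρf0 : ∀ z ∈ ball (0:ℂ) 1, 0 ≤ ρf z := fun z hz => rho_nonneg (hC z hz) (hD z hz) (hA z hz) (hf z hz)
  have hψc : ContinuousOn ψ (ball 0 1) := by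
    refine ContinuousOn.mul (ContinuousOn.pow ?_ k) (PL_differentiable l).continuous.continuousOn.norm
    exact ContinuousOn.sup (rho_continuousOn hCd hDd hAd hbd hgd hfd hg hA hf)
      (rho_continuousOn hCd hDd hAd had hgd hCd hg hA hC)
  set K : Set ℂ := closedBall 0 1 ∩ {z | Q z ^ k * η ≤ 2 ^ l.length} with hK
  have hKc : IsCompact K := (isCompact_closedBall _ _).inter_right
    (isClosed_le ((hQc.pow k).mul continuous_const) continuous_const)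
  have hKb : K ⊆ ball 0 1 := by
    intro z hz
    have h1 : ‖z‖ ≤ 1 := mem_closedBall_zero_iff.1 hz.1
    rcases h1.lt_or_eq with h | h
    · exact mem_ball_zero_iff.2 h
    · have h2 : Q z ^ k * η ≤ 2 ^ l.length := hz.2
      rw [hQ1 z h, one_pow, one_mul] at h2
      linarith
  have hout : ∀ z ∈ ball (0:ℂ) 1, z ∉ K → ψ z < η := by
    intro z hz hzK
    have hz1 := mem_ball_zero_iff.1 hz
    have h1 : 2 ^ l.length < Q z ^ k * η := by
      by_contra h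
      push Not at h
      exact hzK ⟨mem_closedBall_zero_iff.2 hz1.le, h⟩
    have hQ0 : 0 ≤ Q z := by
      have h2 := hQ z hz
      have h3 := one_sub_sq_pos (hD z hz)
      have h4 := one_sub_sq_pos hz1
      have h5 : 0 ≤ Q z * (1 - ‖D z‖ ^ 2) := by rw [← h2]; positivity
      exact nonneg_of_mul_nonneg_left h5 h3
    have b1 := rho_bound (b := b) (g := g) (f := f) hz hBd hB (hC z hz) hfd hf (hb z hz) (hg z hz) (hD z hz) (hDg z hz) (hQ z hz)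
    have b2 := rho_bound (b := a) (g := g) (f := C) hz hBd hB (hC z hz) hCd hC (ha z hz) (hg z hz) (hD z hz) (hDg z hz) (hQ z hz)
    set m := max (ρf z) (ρC z) with hm
    have hm0 : 0 ≤ m := (hρf0 z hz).trans (le_max_left _ _)
    have hmQ : m * Q z ≤ 1 := by
      rcases max_choice (ρf z) (ρC z) with h | h
      · rw [hm, h]; exact b1
      · rw [hm, h]; exact b2
    have hmQk : (m * Q z) ^ k ≤ 1 := pow_le_one₀ (mul_nonneg hm0 hQ0) hmQ
    have hψle : ψ z ≤ m ^ k * 2 ^ l.length := by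
      change m ^ k * ‖PL l z‖ ≤ _
      have := PL_norm_le l hl hz1
      gcongr
    rcases (pow_nonneg hm0 k).lt_or_eq with h | h
    · calc ψ z ≤ m ^ k * 2 ^ l.length := hψle
        _ < m ^ k * (Q z ^ k * η) := by gcongr
        _ = (m * Q z) ^ k * η := by rw [mul_pow]; ring
        _ ≤ 1 * η := by gcongr
        _ = η := one_mul _
    · rw [← h, zero_mul] at hψle
      linarith
  have hψ1 : η ≤ ψ z₁ := by
    rw [hη, hψ]
    simp only
    have h1 := hρf0 z₁ hz₁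
    have h2 := le_max_left (ρf z₁) (ρC z₁)
    gcongr
  have hz₁K : z₁ ∈ K := by
    by_contra h
    have := hout z₁ hz₁ h
    linarith
  obtain ⟨z₀, hz₀K, hmax⟩ := hKc.exists_isMaxOn ⟨z₁, hz₁K⟩ (hψc.mono hKb)
  have hz₀ := hKb hz₀K
  have hge : η ≤ ψ z₀ := hψ1.trans (hmax hz₁K)
  have hglob : ∀ z ∈ ball (0:ℂ) 1, ψ z ≤ ψ z₀ := by
    intro z hz
    by_cases h : z ∈ K
    · exact hmax h
    · exact (hout z hz h).le.trans hge
  have hP0 : PL l z₀ ≠ 0 := by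
    intro h
    have : ψ z₀ = 0 := by
      rw [hψ]
      simp only
      rw [h, norm_zero, mul_zero]
    linarith
  have hPn0 : 0 < ‖PL l z₀‖ := norm_pos_iff.2 hP0
  have hm0 : 0 ≤ max (ρf z₀) (ρC z₀) := (hρf0 z₀ hz₀).trans (le_max_left _ _)
  have hm1 : 1 < max (ρf z₀) (ρC z₀) := by
    by_contra h
    push Not at h
    have h1 : (max (ρf z₀) (ρC z₀)) ^ k ≤ 1 := pow_le_one₀ hm0 h
    have h2 := PL_norm_le l hl (mem_ball_zero_iff.1 hz₀)
    have h3 : ψ z₀ ≤ 1 * 2 ^ l.length := by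
      change (max (ρf z₀) (ρC z₀)) ^ k * ‖PL l z₀‖ ≤ _
      gcongr
    linarith
  have hnhds : ball (0:ℂ) 1 ∈ 𝓝 z₀ := isOpen_ball.mem_nhds hz₀
  rcases le_total (ρC z₀) (ρf z₀) with hle | hle
  · have hmf : max (ρf z₀) (ρC z₀) = ρf z₀ := max_eq_left hle
    rw [hmf] at hm1
    refine branch (a := a) (b := b) (g := g) (f := f) z₀ hz₀ hBd hB hCd hC hDd hD hfd hf hbd hgd (ha z₀ hz₀)
      (hb z₀ hz₀) (hg z₀ hz₀) (hDg z₀ hz₀) hP0 hm1 hle hkne ?_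
    filter_upwards [hnhds] with z hz
    have h1 := hglob z hz
    change (max (ρf z) (ρC z)) ^ k * ‖PL l z‖ ≤ (max (ρf z₀) (ρC z₀)) ^ k * ‖PL l z₀‖ at h1
    rw [hmf] at h1
    refine le_trans ?_ h1
    have h2 := hρf0 z hz
    have h3 := le_max_left (ρf z) (ρC z)
    gcongr
  · have hmf : max (ρf z₀) (ρC z₀) = ρC z₀ := max_eq_right hle
    rw [hmf] at hm1
    refine branch (a := a) (b := a) (g := g) (f := C) z₀ hz₀ hBd hB hCd hC hDd hD hCd hC had hgd (ha z₀ hz₀)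
      (ha z₀ hz₀) (hg z₀ hz₀) (hDg z₀ hz₀) hP0 hm1 le_rfl hkne ?_
    filter_upwards [hnhds] with z hz
    have h1 := hglob z hz
    change (max (ρf z) (ρC z)) ^ k * ‖PL l z‖ ≤ (max (ρf z₀) (ρC z₀)) ^ k * ‖PL l z₀‖ at h1
    rw [hmf] at h1
    refine le_trans ?_ h1
    have h2 : 0 ≤ ρC z := rho_nonneg (hC z hz) (hD z hz) (hA z hz) (hC z hz)
    have h3 := le_max_right (ρf z) (ρC z)
    gcongr

/-- the comparison in product form: for a list `l` of zeros of `(B ∘ C)'` there is a function `D`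
with critical points `l` whose hyperbolic derivative dominates -/
theorem exists_dominating {B C f : ℂ → ℂ} {l : List ℂ} (hl : ∀ a ∈ l, a ∈ ball (0:ℂ) 1)
    (hBd : DifferentiableOn ℂ B (ball 0 1)) (hB : ∀ z ∈ ball (0:ℂ) 1, ‖B z‖ < 1)
    (hCd : DifferentiableOn ℂ C (ball 0 1)) (hC : ∀ z ∈ ball (0:ℂ) 1, ‖C z‖ < 1)
    (hfd : DifferentiableOn ℂ f (ball 0 1)) (hf : ∀ z ∈ ball (0:ℂ) 1, ‖f z‖ < 1)
    (ha : ∀ z ∈ ball (0:ℂ) 1, (l.count z : ℕ∞) ≤ analyticOrderAt (fun z => deriv B (C z) * deriv C z) z)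
    (hb : ∀ z ∈ ball (0:ℂ) 1, (l.count z : ℕ∞) ≤ analyticOrderAt (fun z => deriv B (C z) * deriv f z) z) :
    ∃ D g : ℂ → ℂ, DifferentiableOn ℂ D (ball 0 1) ∧ (∀ z ∈ ball (0:ℂ) 1, ‖D z‖ < 1) ∧
      DifferentiableOn ℂ g (ball 0 1) ∧ (∀ z ∈ ball (0:ℂ) 1, g z ≠ 0) ∧
      (∀ z ∈ ball (0:ℂ) 1, deriv D z = PL l z * g z) ∧
      ∀ z ∈ ball (0:ℂ) 1, ‖deriv B (C z) * deriv f z‖ * ((1 - ‖C z‖ ^ 2) * (1 - ‖D z‖ ^ 2)) ≤
        ‖deriv D z‖ * ((1 - ‖B (C z)‖ ^ 2) * (1 - ‖f z‖ ^ 2)) := by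
  obtain ⟨D, g, Q, hDd, hD, hgd, hg, hDg, hQc, hQ1, hQ⟩ := exists_fbp_list l hl
  have hB'd : DifferentiableOn ℂ (deriv B) (ball 0 1) := hBd.deriv isOpen_ball
  have hC'd : DifferentiableOn ℂ (deriv C) (ball 0 1) := hCd.deriv isOpen_ball
  have hf'd : DifferentiableOn ℂ (deriv f) (ball 0 1) := hfd.deriv isOpen_ball
  have hBC : DifferentiableOn ℂ (fun z => deriv B (C z)) (ball 0 1) :=
    hB'd.comp hCd fun x hx => mem_ball_zero_iff.2 (hC x hx)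
  obtain ⟨a, had, haeq⟩ := div_list l hl _ (hBC.mul hC'd) ha
  obtain ⟨b, hbd, hbeq⟩ := div_list l hl _ (hBC.mul hf'd) hb
  refine ⟨D, g, hDd, hD, hgd, hg, hDg, fun z hz => ?_⟩
  have hbz : deriv B (C z) * deriv f z = PL l z * b z := hbeq z hz
  by_cases hP : PL l z = 0
  · rw [hbz, hDg z hz, hP]; simp
  · have h1 := compare hl hBd hB hCd hC hDd hD hfd hf had hbd hgd haeq hbeq hg hDg hQc hQ1 hQ hz hP
    unfold rho at h1
    simp only at h1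
    have e1 := one_sub_sq_pos (hC z hz)
    have e2 := one_sub_sq_pos (hD z hz)
    have e3 := one_sub_sq_pos (hB (C z) (mem_ball_zero_iff.2 (hC z hz)))
    have e4 := one_sub_sq_pos (hf z hz)
    have hgn : 0 < ‖g z‖ := norm_pos_iff.2 (hg z hz)
    rw [norm_div, div_mul_div_comm, div_le_one (by positivity)] at h1
    rw [hbz, hDg z hz, norm_mul, norm_mul, mul_assoc, mul_assoc]
    gcongr

end Pool.Agent.N279.MBP
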