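import Mathlib

/-!
# Definitions for MP_ce8478_an: maximal Blaschke products
-/

open Metric
open scoped ComplexConjugate

namespace Pool.Agent.N279.MBP

/-- `f` is a bounded analytic function on the open unit disc. (Only the values of `f` on the open
unit disc matter, here and in the definitions below.) -/
def InHinf (f : ℂ → ℂ) : Prop :=
  DifferentiableOn ℂ f (ball 0 1) ∧ ∃ K : ℝ, ∀ z ∈ ball (0 : ℂ) 1, ‖f z‖ ≤ K

/-- `m` is an `H^∞` critical set, given by its multiplicities: `m z` is the number of times the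
point `z` of the disc occurs. There is a nonconstant `f` in `H^∞` whose derivative vanishes at each
point `z` of the disc to order exactly `m z`. -/
def IsCritSet (m : ℂ → ℕ) : Prop :=
  ∃ f : ℂ → ℂ, InHinf f ∧ (∃ z ∈ ball (0 : ℂ) 1, ∃ w ∈ ball (0 : ℂ) 1, f z ≠ f w) ∧
    ∀ z ∈ ball (0 : ℂ) 1, analyticOrderAt (deriv f) z = m z

/-- The set `F_C` for the critical set `m`: the functions of `H^∞` whose derivative vanishes at each
point `z` of the disc to order at least `m z`. -/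
def InF (m : ℂ → ℕ) (f : ℂ → ℂ) : Prop :=
  InHinf f ∧ ∀ z ∈ ball (0 : ℂ) 1, (m z : ℕ∞) ≤ analyticOrderAt (deriv f) z

/-- `g` solves the extremal problem for `m`: among the `f` in `F_C` with `‖f‖_∞ ≤ 1` the real part
of `f^{(N+1)}(0)` is largest for `f = g`, where `N = m 0`. -/
def IsExtremal (m : ℂ → ℕ) (g : ℂ → ℂ) : Prop :=
  InF m g ∧ (∀ z ∈ ball (0 : ℂ) 1, ‖g z‖ ≤ 1) ∧
    ∀ f : ℂ → ℂ, InF m f → (∀ z ∈ ball (0 : ℂ) 1, ‖f z‖ ≤ 1) →
      (iteratedDeriv (m 0 + 1) f 0).re ≤ (iteratedDeriv (m 0 + 1) g 0).re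

/-- `f` is a maximal Blaschke product: `f = T ∘ g` on the disc, where `g` solves the extremal
problem of some `H^∞` critical set and `T(w) = c (w - a) / (1 - conj a w)`, with `|c| = 1` and
`|a| < 1`, is an automorphism of the disc. -/
def IsMaxBlaschke (f : ℂ → ℂ) : Prop :=
  ∃ m : ℂ → ℕ, IsCritSet m ∧ ∃ g : ℂ → ℂ, IsExtremal m g ∧ ∃ c a : ℂ, ‖c‖ = 1 ∧ ‖a‖ < 1 ∧
    ∀ z ∈ ball (0 : ℂ) 1, f z = c * ((g z - a) / (1 - conj a * g z))

end Pool.Agent.N279.MBP
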