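import Mathlib

/-!
Finite Blaschke products with prescribed critical points: the energy argument.
-/

open Finset Complex Polynomial

namespace Pool.Agent.N279.MBP

variable {n : ℕ}

/-- one factor of the energy -/
noncomputable def EF (w : Fin n → ℂ) (t : Fin (n + 1) → ℂ) (j : Fin (n + 1)) : ℝ :=
  (∏ i ∈ univ.erase j, ‖t j - t i‖) / (∏ k, ‖t j - w k‖ ^ 2)

/-- the energy -/
noncomputable def En (w : Fin n → ℂ) (t : Fin (n + 1) → ℂ) : ℝ := ∏ j, EF w t j

/-- the configurations on the circle -/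
def KS (n : ℕ) : Set (Fin (n + 1) → ℂ) := Set.pi Set.univ fun _ => Metric.sphere (0 : ℂ) 1

lemma KS_compact : IsCompact (KS n) := isCompact_univ_pi fun _ => isCompact_sphere 0 1

lemma mem_KS {t : Fin (n + 1) → ℂ} : t ∈ KS n ↔ ∀ j, ‖t j‖ = 1 := by
  unfold KS
  simp

lemma sub_ne_of_norm {s w : ℂ} (hs : ‖s‖ = 1) (hw : ‖w‖ < 1) : s - w ≠ 0 := by
  intro h
  have : s = w := by linear_combination h
  rw [this] at hs
  linarith

lemma En_continuousOn (w : Fin n → ℂ) (hw : ∀ k, ‖w k‖ < 1) : ContinuousOn (En w) (KS n) := by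
  unfold En EF
  refine continuousOn_finsetProd _ fun j _ => ?_
  refine ContinuousOn.div ?_ ?_ ?_
  · exact (by fun_prop : Continuous fun t : Fin (n + 1) → ℂ => ∏ i ∈ univ.erase j, ‖t j - t i‖).continuousOn
  · exact (by fun_prop : Continuous fun t : Fin (n + 1) → ℂ => ∏ k, ‖t j - w k‖ ^ 2).continuousOn
  · intro t ht
    refine prod_ne_zero_iff.2 fun k _ => pow_ne_zero _ (norm_ne_zero_iff.2 ?_)
    exact sub_ne_of_norm (mem_KS.1 ht j) (hw k)

lemma En_pos {w : Fin n → ℂ} (hw : ∀ k, ‖w k‖ < 1) {t : Fin (n + 1) → ℂ} (ht : t ∈ KS n)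
    (hinj : Function.Injective t) : 0 < En w t := by
  unfold En EF
  refine prod_pos fun j _ => div_pos ?_ ?_
  · refine prod_pos fun i hi => norm_pos_iff.2 (sub_ne_zero.2 fun h => ?_)
    exact (mem_erase.1 hi).1 (hinj h).symm
  · refine prod_pos fun k _ => ?_
    have := norm_pos_iff.2 (sub_ne_of_norm (mem_KS.1 ht j) (hw k))
    positivity

lemma exists_inj (n : ℕ) : ∃ t ∈ KS n, Function.Injective t := by
  refine ⟨fun j => Complex.exp (((j : ℝ) / (n + 1) : ℝ) * I), ?_, ?_⟩
  · rw [mem_KS]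
    intro j
    exact Complex.norm_exp_ofReal_mul_I _
  · intro i j hij
    have h1 := congrArg Complex.re hij
    rw [Complex.exp_ofReal_mul_I_re, Complex.exp_ofReal_mul_I_re] at h1
    have hmem : ∀ k : Fin (n + 1), ((k : ℝ) / (n + 1) : ℝ) ∈ Set.Icc 0 Real.pi := by
      intro k
      have hk : (k : ℝ) < n + 1 := by exact_mod_cast k.2
      have hn : (0:ℝ) < n + 1 := by positivity
      refine ⟨by positivity, ?_⟩
      have : (k : ℝ) / (n + 1) < 1 := (div_lt_one hn).2 hk
      linarith [Real.pi_gt_three]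
    have h2 := Real.injOn_cos (hmem i) (hmem j) h1
    have hn : (0:ℝ) < n + 1 := by positivity
    have h3 : (i : ℝ) = j := by
      field_simp at h2
      exact h2
    exact Fin.ext (by exact_mod_cast h3)

/-- there is a configuration of maximal energy, with distinct points -/
lemma exists_max (w : Fin n → ℂ) (hw : ∀ k, ‖w k‖ < 1) :
    ∃ t ∈ KS n, Function.Injective t ∧ ∀ s ∈ KS n, En w s ≤ En w t := by
  obtain ⟨t0, ht0, hinj0⟩ := exists_inj n
  obtain ⟨t, ht, hmax⟩ := (KS_compact (n := n)).exists_isMaxOn ⟨t0, ht0⟩ (En_continuousOn w hw)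
  refine ⟨t, ht, ?_, fun s hs => hmax hs⟩
  have hpos : 0 < En w t := lt_of_lt_of_le (En_pos hw ht0 hinj0) (hmax ht0)
  intro i j hij
  by_contra hne
  have : En w t = 0 := by
    unfold En
    refine prod_eq_zero (mem_univ i) ?_
    unfold EF
    rw [prod_eq_zero (i := j), zero_div]
    · exact mem_erase.2 ⟨fun h => hne h.symm, mem_univ _⟩
    · rw [hij, sub_self, norm_zero]
  linarith

/-- the part of the energy depending on one point -/
noncomputable def Gj (w : Fin n → ℂ) (t : Fin (n + 1) → ℂ) (j : Fin (n + 1)) (s : ℂ) : ℝ :=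
  (∏ i ∈ univ.erase j, ‖s - t i‖) ^ 2 / ∏ k, ‖s - w k‖ ^ 2

/-- the remaining part of the energy -/
noncomputable def Kj (w : Fin n → ℂ) (t : Fin (n + 1) → ℂ) (j : Fin (n + 1)) : ℝ :=
  ∏ p ∈ univ.erase j, ((∏ i ∈ (univ.erase p).erase j, ‖t p - t i‖) / ∏ k, ‖t p - w k‖ ^ 2)

lemma En_update (w : Fin n → ℂ) (t : Fin (n + 1) → ℂ) (j : Fin (n + 1)) (s : ℂ) :
    En w (Function.update t j s) = Gj w t j s * Kj w t j := by
  unfold En Gj Kj
  rw [← mul_prod_erase univ _ (mem_univ j)]
  have h1 : EF w (Function.update t j s) j = (∏ i ∈ univ.erase j, ‖s - t i‖) / ∏ k, ‖s - w k‖ ^ 2 := by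
    unfold EF
    rw [Function.update_self]
    congr 1
    refine prod_congr rfl fun i hi => ?_
    rw [Function.update_of_ne (mem_erase.1 hi).1]
  have h2 : ∀ p ∈ univ.erase j, EF w (Function.update t j s) p =
      ‖s - t p‖ * ((∏ i ∈ (univ.erase p).erase j, ‖t p - t i‖) / ∏ k, ‖t p - w k‖ ^ 2) := by
    intro p hp
    have hpj := (mem_erase.1 hp).1
    unfold EF
    rw [Function.update_of_ne hpj, ← mul_prod_erase (univ.erase p) _ (mem_erase.2 ⟨hpj.symm, mem_univ j⟩),
      Function.update_self, norm_sub_rev (t p) s, mul_div_assoc]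
    congr 2
    refine prod_congr rfl fun i hi => ?_
    rw [Function.update_of_ne (mem_erase.1 hi).1]
  rw [h1, prod_congr rfl h2, prod_mul_distrib]
  ring

lemma Gj_max {w : Fin n → ℂ} (hw : ∀ k, ‖w k‖ < 1) {t : Fin (n + 1) → ℂ} (ht : t ∈ KS n)
    (hinj : Function.Injective t) (hmax : ∀ s ∈ KS n, En w s ≤ En w t) (j : Fin (n + 1)) {s : ℂ} (hs : ‖s‖ = 1) :
    Gj w t j s ≤ Gj w t j (t j) := by
  have hK : 0 < Kj w t j := by
    unfold Kj
    refine prod_pos fun p _ => div_pos ?_ ?_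
    · refine prod_pos fun i hi => norm_pos_iff.2 (sub_ne_zero.2 fun h => ?_)
      exact (mem_erase.1 (mem_erase.1 hi).2).1 (hinj h).symm
    · refine prod_pos fun k _ => ?_
      have := norm_pos_iff.2 (sub_ne_of_norm (mem_KS.1 ht p) (hw k))
      positivity
  have h1 := hmax (Function.update t j s) (by
    rw [mem_KS]
    intro i
    by_cases hi : i = j
    · subst hi; rw [Function.update_self]; exact hs
    · rw [Function.update_of_ne hi]; exact mem_KS.1 ht i)
  have h2 : En w t = En w (Function.update t j (t j)) := by rw [Function.update_eq_self]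
  rw [h2, En_update, En_update] at h1
  exact le_of_mul_le_mul_right h1 hK

/-- the polynomial with roots at the other points -/
noncomputable def Uj (t : Fin (n + 1) → ℂ) (j : Fin (n + 1)) : ℂ[X] := ∏ i ∈ univ.erase j, (X - C (t i))

/-- the polynomial with roots `w` -/
noncomputable def Wp (w : Fin n → ℂ) : ℂ[X] := ∏ k, (X - C (w k))

/-- the reflected polynomial -/
noncomputable def Ws (w : Fin n → ℂ) : ℂ[X] := ∏ k, (1 - C ((starRingEnd ℂ) (w k)) * X)

lemma Gj_eq (w : Fin n → ℂ) (t : Fin (n + 1) → ℂ) (j : Fin (n + 1)) (s : ℂ) :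
    Gj w t j s = ‖(Uj t j).eval s / (Wp w).eval s‖ ^ 2 := by
  unfold Gj Uj Wp
  rw [norm_div, div_pow, eval_prod, eval_prod, norm_prod, norm_prod, ← prod_pow univ]
  simp

/-- logarithmic derivative of a product of linear factors -/
lemma logder {ι : Type*} [DecidableEq ι] (S : Finset ι) (p : ι → ℂ) (z : ℂ) (hz : ∀ i ∈ S, z - p i ≠ 0) :
    (derivative (∏ i ∈ S, (X - C (p i)))).eval z = (∏ i ∈ S, (X - C (p i))).eval z * ∑ i ∈ S, (z - p i)⁻¹ := by
  rw [derivative_prod_finset, eval_finsetSum, mul_sum]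
  refine sum_congr rfl fun i hi => ?_
  rw [eval_mul, eval_prod, eval_prod, derivative_sub, derivative_X, derivative_C, sub_zero, eval_one, mul_one,
    ← mul_prod_erase S _ hi, eval_sub, eval_X, eval_C]
  field_simp [hz i hi]

/-- logarithmic derivative of the reflected product -/
lemma logder' {ι : Type*} [DecidableEq ι] (S : Finset ι) (p : ι → ℂ) (z : ℂ) (hz : ∀ i ∈ S, 1 - p i * z ≠ 0) :
    (derivative (∏ i ∈ S, (1 - C (p i) * X))).eval z =
      (∏ i ∈ S, (1 - C (p i) * X)).eval z * ∑ i ∈ S, (-(p i) / (1 - p i * z)) := by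
  rw [derivative_prod_finset, eval_finsetSum, mul_sum]
  refine sum_congr rfl fun i hi => ?_
  rw [eval_mul, eval_prod, eval_prod, derivative_sub, derivative_mul, derivative_X, derivative_C, derivative_one,
    ← mul_prod_erase S _ hi]
  simp only [zero_mul, zero_add, mul_one, zero_sub, eval_neg, eval_C, eval_sub, eval_one, eval_mul, eval_X]
  have h := hz i hi
  rw [mul_comm (1 - p i * z), mul_assoc, mul_div_cancel₀ _ h]

end Pool.Agent.N279.MBP
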