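import Pool.Agent.N279.MBP.Energy

/-!
The partial fraction identity at a configuration of maximal energy.
-/

open Finset Complex Polynomial
open scoped ComplexConjugate

namespace Pool.Agent.N279.MBP

variable {n : ℕ}

lemma Uj_eval_ne {t : Fin (n + 1) → ℂ} (hinj : Function.Injective t) (j : Fin (n + 1)) : (Uj t j).eval (t j) ≠ 0 := by
  unfold Uj
  rw [eval_prod]
  refine prod_ne_zero_iff.2 fun i hi => ?_
  rw [eval_sub, eval_X, eval_C]
  exact sub_ne_zero.2 fun h => (mem_erase.1 hi).1 (hinj h).symm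

lemma Wp_eval_ne {w : Fin n → ℂ} (hw : ∀ k, ‖w k‖ < 1) {z : ℂ} (hz : ‖z‖ = 1) : (Wp w).eval z ≠ 0 := by
  unfold Wp
  rw [eval_prod]
  refine prod_ne_zero_iff.2 fun k _ => ?_
  rw [eval_sub, eval_X, eval_C]
  exact sub_ne_of_norm hz (hw k)

lemma one_sub_conj_ne {w z : ℂ} (hw : ‖w‖ < 1) (hz : ‖z‖ ≤ 1) : 1 - conj w * z ≠ 0 := by
  intro h
  have h1 : conj w * z = 1 := by linear_combination -h
  have h2 := congrArg norm h1
  rw [norm_mul, Complex.norm_conj, norm_one] at h2
  nlinarith [norm_nonneg w, norm_nonneg z]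

lemma Ws_eval_ne {w : Fin n → ℂ} (hw : ∀ k, ‖w k‖ < 1) {z : ℂ} (hz : ‖z‖ ≤ 1) : (Ws w).eval z ≠ 0 := by
  unfold Ws
  rw [eval_prod]
  refine prod_ne_zero_iff.2 fun k _ => ?_
  rw [eval_sub, eval_one, eval_mul, eval_X, eval_C]
  exact one_sub_conj_ne (hw k) hz

lemma crit_im {w : Fin n → ℂ} (hw : ∀ k, ‖w k‖ < 1) {t : Fin (n + 1) → ℂ} (ht : t ∈ KS n)
    (hinj : Function.Injective t) (hmax : ∀ s ∈ KS n, En w s ≤ En w t) (j : Fin (n + 1)) :
    (t j * (∑ i ∈ univ.erase j, (t j - t i)⁻¹ - ∑ k, (t j - w k)⁻¹)).im = 0 := by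
  set y0 := ∑ i ∈ univ.erase j, (t j - t i)⁻¹ with hy0
  set x0 := ∑ k, (t j - w k)⁻¹ with hx0
  have htj : ‖t j‖ = 1 := mem_KS.1 ht j
  have hU := Uj_eval_ne hinj j
  have hW := Wp_eval_ne hw htj
  have hU' : (derivative (Uj t j)).eval (t j) = (Uj t j).eval (t j) * y0 :=
    logder (univ.erase j) t (t j) fun i hi => sub_ne_zero.2 fun h => (mem_erase.1 hi).1 (hinj h).symm
  have hW' : (derivative (Wp w)).eval (t j) = (Wp w).eval (t j) * x0 :=
    logder univ w (t j) fun k _ => sub_ne_of_norm htj (hw k)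
  set H : ℂ → ℂ := fun s => (Uj t j).eval s / (Wp w).eval s with hH
  have hHd : HasDerivAt H (H (t j) * (y0 - x0)) (t j) := by
    have h := ((Uj t j).hasDerivAt (t j)).div ((Wp w).hasDerivAt (t j)) hW
    have h2 : ((derivative (Uj t j)).eval (t j) * (Wp w).eval (t j) - (Uj t j).eval (t j) * (derivative (Wp w)).eval (t j)) /
        (Wp w).eval (t j) ^ 2 = H (t j) * (y0 - x0) := by
      rw [hU', hW', hH]
      field_simp
    rw [h2] at h
    exact h
  have hγ : HasDerivAt (fun θ : ℝ => t j * Complex.exp (θ * I)) (t j * I) 0 := by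
    have h1 : HasDerivAt (fun z : ℂ => t j * Complex.exp (z * I)) (t j * (Complex.exp (((0:ℝ):ℂ) * I) * (1 * I))) ((0:ℝ) : ℂ) :=
      (((hasDerivAt_id _).mul_const I).cexp).const_mul (t j)
    have h2 := h1.comp_ofReal
    simpa using h2
  have hcomp : HasDerivAt (fun θ : ℝ => H (t j * Complex.exp (θ * I))) (H (t j) * (y0 - x0) * (t j * I)) 0 := by
    have h0 : t j * Complex.exp (((0:ℝ) : ℂ) * I) = t j := by simp
    have h1 : HasDerivAt H (H (t j) * (y0 - x0)) (t j * Complex.exp (((0:ℝ) : ℂ) * I)) := by rw [h0]; exact hHd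
    have h2 := h1.scomp (0:ℝ) hγ
    simp only [smul_eq_mul] at h2
    rw [mul_comm] at h2
    exact h2
  have hsq := hcomp.norm_sq
  have hloc : IsLocalMax (fun θ : ℝ => ‖H (t j * Complex.exp (θ * I))‖ ^ 2) 0 := by
    refine Filter.Eventually.of_forall fun θ => ?_
    have h1 := Gj_max hw ht hinj hmax j (s := t j * Complex.exp (θ * I)) (by
      rw [norm_mul, htj, one_mul, Complex.norm_exp_ofReal_mul_I])
    rw [Gj_eq, Gj_eq] at h1
    simpa [hH] using h1
  have hzero := hloc.hasDerivAt_eq_zero hsq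
  have hne : H (t j) ≠ 0 := div_ne_zero hU hW
  simp only [Complex.ofReal_zero, zero_mul, Complex.exp_zero, mul_one] at hzero
  rw [Complex.inner] at hzero
  have h3 : conj (H (t j)) * (H (t j) * (y0 - x0) * (t j * I)) = ((‖H (t j)‖ ^ 2 : ℝ) : ℂ) * ((t j * (y0 - x0)) * I) := by
    have := Complex.conj_mul' (H (t j))
    push_cast
    rw [← this]
    ring
  have h3' : (H (t j) * (y0 - x0) * (t j * I) * conj (H (t j))).re = -(‖H (t j)‖ ^ 2 * (t j * (y0 - x0)).im) := by
    rw [mul_comm, h3, Complex.re_ofReal_mul, Complex.mul_I_re]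
    ring
  have h5 : 0 < ‖H (t j)‖ ^ 2 := by
    have := norm_pos_iff.2 hne
    positivity
  have h4 : ‖H (t j)‖ ^ 2 * (t j * (y0 - x0)).im = 0 := by
    first
      | (rw [h3'] at hzero; linarith)
      | (rw [mul_comm] at h3'; rw [h3'] at hzero; linarith)
  rcases mul_eq_zero.1 h4 with h | h
  · linarith
  · exact h

lemma re_half {a b : ℂ} (ha : ‖a‖ = 1) (hb : ‖b‖ = 1) (hab : a ≠ b) : a * (a - b)⁻¹ + conj (a * (a - b)⁻¹) = 1 := by
  have ha0 : a ≠ 0 := norm_ne_zero_iff.1 (by rw [ha]; norm_num)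
  have hb0 : b ≠ 0 := norm_ne_zero_iff.1 (by rw [hb]; norm_num)
  have hca : conj a = a⁻¹ := by
    rw [Complex.inv_def, Complex.normSq_eq_norm_sq, ha]; simp
  have hcb : conj b = b⁻¹ := by
    rw [Complex.inv_def, Complex.normSq_eq_norm_sq, hb]; simp
  have hab' : a - b ≠ 0 := sub_ne_zero.2 hab
  have hba' : b - a ≠ 0 := sub_ne_zero.2 hab.symm
  rw [map_mul, map_inv₀, map_sub, hca, hcb]
  have h1 : a⁻¹ - b⁻¹ = (b - a) / (a * b) := by field_simp
  rw [h1]
  field_simp
  ring

lemma refl_term {w z : ℂ} (hw : ‖w‖ < 1) (hz : ‖z‖ = 1) :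
    z * (-(conj w) / (1 - conj w * z)) = 1 - conj (z * (z - w)⁻¹) := by
  have hz0 : z ≠ 0 := norm_ne_zero_iff.1 (by rw [hz]; norm_num)
  have hcz : conj z = z⁻¹ := by
    rw [Complex.inv_def, Complex.normSq_eq_norm_sq, hz]; simp
  have h1 := one_sub_conj_ne hw hz.le
  have h1' : 1 - z * conj w ≠ 0 := by rwa [mul_comm z]
  rw [map_mul, map_inv₀, map_sub, hcz]
  have h2 : z⁻¹ - conj w = (1 - z * conj w) / z := by field_simp
  rw [h2]
  field_simp
  ring

lemma key_logder {w : Fin n → ℂ} (hw : ∀ k, ‖w k‖ < 1) {t : Fin (n + 1) → ℂ} (ht : t ∈ KS n)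
    (hinj : Function.Injective t) (hmax : ∀ s ∈ KS n, En w s ≤ En w t) (j : Fin (n + 1)) :
    ∑ k, (t j - w k)⁻¹ + ∑ k, (-(conj (w k)) / (1 - conj (w k) * t j)) =
      2 * ∑ i ∈ univ.erase j, (t j - t i)⁻¹ := by
  have htj : ‖t j‖ = 1 := mem_KS.1 ht j
  have htj0 : t j ≠ 0 := norm_ne_zero_iff.1 (by rw [htj]; norm_num)
  set y0 := ∑ i ∈ univ.erase j, (t j - t i)⁻¹ with hy0
  set x0 := ∑ k, (t j - w k)⁻¹ with hx0
  have him := crit_im hw ht hinj hmax j
  rw [← hy0, ← hx0] at him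
  have h1 : t j * ∑ k, (-(conj (w k)) / (1 - conj (w k) * t j)) = n - conj (t j * x0) := by
    rw [hx0, mul_sum, mul_sum, map_sum]
    rw [sum_congr rfl fun k _ => refl_term (hw k) htj, sum_sub_distrib]
    simp
  have h2 : t j * y0 + conj (t j * y0) = n := by
    rw [hy0, mul_sum, map_sum, ← sum_add_distrib]
    rw [sum_congr rfl fun i hi => re_half htj (mem_KS.1 ht i) fun h => (mem_erase.1 hi).1 (hinj h).symm]
    simp
  have h3 : t j * y0 - t j * x0 = conj (t j * y0) - conj (t j * x0) := by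
    rw [← map_sub]
    have : t j * y0 - t j * x0 = t j * (y0 - x0) := by ring
    rw [this]
    exact (Complex.conj_eq_iff_im.2 him).symm
  apply mul_left_cancel₀ htj0
  rw [mul_add, h1]
  linear_combination -h2 - h3

/-- the polynomial `N` -/
noncomputable def Np (w : Fin n → ℂ) : ℂ[X] := Wp w * Ws w

/-- the coefficients -/
noncomputable def cj (w : Fin n → ℂ) (t : Fin (n + 1) → ℂ) (j : Fin (n + 1)) : ℂ :=
  (Np w).eval (t j) / ((Uj t j).eval (t j)) ^ 2

lemma Uj_root {t : Fin (n + 1) → ℂ} {i j : Fin (n + 1)} (hij : i ≠ j) : (Uj t i).eval (t j) = 0 := by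
  unfold Uj
  rw [eval_prod]
  exact prod_eq_zero (mem_erase.2 ⟨hij.symm, mem_univ j⟩) (by simp)

lemma Uj_natDegree (t : Fin (n + 1) → ℂ) (j : Fin (n + 1)) : (Uj t j).natDegree ≤ n := by
  unfold Uj
  refine (natDegree_prod_le _ _).trans ?_
  have : ∀ i ∈ univ.erase j, (X - C (t i)).natDegree ≤ 1 := fun i _ => (natDegree_X_sub_C (t i)).le
  refine (sum_le_card_nsmul _ _ 1 this).trans ?_
  simp

lemma Np_natDegree (w : Fin n → ℂ) : (Np w).natDegree ≤ n + n := by
  unfold Np Wp Ws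
  refine natDegree_mul_le.trans (add_le_add ?_ ?_)
  · refine (natDegree_prod_le _ _).trans ?_
    have : ∀ i ∈ (univ : Finset (Fin n)), (X - C (w i)).natDegree ≤ 1 := fun i _ => (natDegree_X_sub_C (w i)).le
    refine (sum_le_card_nsmul _ _ 1 this).trans ?_
    simp
  · refine (natDegree_prod_le _ _).trans ?_
    have : ∀ i ∈ (univ : Finset (Fin n)), (1 - C (conj (w i)) * X).natDegree ≤ 1 := fun i _ => by
      refine (natDegree_sub_le _ _).trans ?_
      refine max_le (by simp) ((natDegree_C_mul_le _ _).trans natDegree_X_le)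
    refine (sum_le_card_nsmul _ _ 1 this).trans ?_
    simp

lemma sq_dvd {p : ℂ[X]} {a : ℂ} (h0 : p.eval a = 0) (h1 : (derivative p).eval a = 0) : (X - C a) ^ 2 ∣ p := by
  by_cases hp : p = 0
  · rw [hp]; exact dvd_zero _
  · have h := (one_lt_rootMultiplicity_iff_isRoot hp).2 ⟨h0, h1⟩
    exact (le_rootMultiplicity_iff hp).1 h

/-- the partial fraction identity -/
lemma partial_fractions {w : Fin n → ℂ} (hw : ∀ k, ‖w k‖ < 1) {t : Fin (n + 1) → ℂ} (ht : t ∈ KS n)
    (hinj : Function.Injective t) (hmax : ∀ s ∈ KS n, En w s ≤ En w t) :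
    Np w = ∑ j, C (cj w t j) * (Uj t j) ^ 2 := by
  rw [← sub_eq_zero]
  set Δ := Np w - ∑ j, C (cj w t j) * (Uj t j) ^ 2 with hΔ
  have hdvd : ∀ j, (X - C (t j)) ^ 2 ∣ Δ := by
    intro j
    have hU := Uj_eval_ne hinj j
    have htj : ‖t j‖ = 1 := mem_KS.1 ht j
    apply sq_dvd
    · rw [hΔ, eval_sub, eval_finsetSum, sum_eq_single j]
      · rw [eval_mul, eval_pow, eval_C]
        unfold cj
        field_simp
        ring
      · intro i _ hi
        rw [eval_mul, eval_pow, Uj_root hi]; simp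
      · intro h; exact absurd (mem_univ j) h
    · rw [hΔ, derivative_sub, eval_sub, derivative_sum, eval_finsetSum, sum_eq_single j]
      · have hU' : (derivative (Uj t j)).eval (t j) = (Uj t j).eval (t j) * ∑ i ∈ univ.erase j, (t j - t i)⁻¹ :=
          logder (univ.erase j) t (t j) fun i hi => sub_ne_zero.2 fun h => (mem_erase.1 hi).1 (hinj h).symm
        have hW' : (derivative (Wp w)).eval (t j) = (Wp w).eval (t j) * ∑ k, (t j - w k)⁻¹ :=
          logder univ w (t j) fun k _ => sub_ne_of_norm htj (hw k)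
        have hS' : (derivative (Ws w)).eval (t j) =
            (Ws w).eval (t j) * ∑ k, (-(conj (w k)) / (1 - conj (w k) * t j)) :=
          logder' univ (fun k => conj (w k)) (t j) fun k _ => one_sub_conj_ne (hw k) htj.le
        have hN' : (derivative (Np w)).eval (t j) = (Np w).eval (t j) *
            (2 * ∑ i ∈ univ.erase j, (t j - t i)⁻¹) := by
          rw [← key_logder hw ht hinj hmax j]
          unfold Np
          rw [derivative_mul, eval_add, eval_mul, eval_mul, eval_mul, hW', hS']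
          ring
        rw [hN', derivative_C_mul, eval_mul, eval_C, derivative_pow, eval_mul, eval_mul, hU']
        unfold cj
        simp only [Nat.cast_ofNat, Nat.add_one_sub_one, pow_one, map_ofNat, eval_ofNat]
        field_simp
        ring
      · intro i _ hi
        rw [derivative_C_mul, eval_mul, derivative_pow, eval_mul, eval_mul, eval_pow, Uj_root hi]; simp
      · intro h; exact absurd (mem_univ j) h
  have hprod : ∏ j, (X - C (t j)) ^ 2 ∣ Δ := by
    refine Fintype.prod_dvd_of_coprime (fun i j hij => ?_) hdvd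
    exact (pairwise_coprime_X_sub_C hinj hij).pow
  refine eq_zero_of_dvd_of_natDegree_lt hprod ?_
  have hd1 : (∏ j, (X - C (t j)) ^ 2).natDegree = 2 * (n + 1) := by
    rw [natDegree_prod_of_monic _ _ fun j _ => (monic_X_sub_C (t j)).pow 2]
    simp [natDegree_X_sub_C, mul_comm]
  have hd2 : Δ.natDegree ≤ n + n := by
    refine (natDegree_sub_le _ _).trans (max_le (Np_natDegree w) ?_)
    refine natDegree_sum_le_of_forall_le _ _ fun j _ => ?_
    refine (natDegree_C_mul_le _ _).trans ((natDegree_pow_le).trans ?_)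
    have := Uj_natDegree t j
    omega
  rw [hd1]
  omega

end Pool.Agent.N279.MBP
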