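import Pool.Agent.N279.MBP.Limit
import Pool.Agent.N279.MBP.Defs

/-!
The inner factor of a maximal Blaschke product is a maximal Blaschke product.
-/

open Complex Filter Topology Metric
open scoped ComplexConjugate
open Pool.Agent.Helper203.NS

namespace Pool.Agent.N279.MBP

lemma zero_mem_ball : (0:ℂ) ∈ ball (0:ℂ) 1 := by simp

lemma one_sub_ne' {a b : ℂ} (ha : ‖a‖ < 1) (hb : ‖b‖ ≤ 1) : 1 - conj a * b ≠ 0 := by
  intro h
  have h1 : conj a * b = 1 := (sub_eq_zero.mp h).symm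
  have h2 : ‖conj a * b‖ < 1 := by
    rw [norm_mul, RCLike.norm_conj]
    calc ‖a‖ * ‖b‖ ≤ ‖a‖ * 1 := by gcongr
      _ < 1 := by linarith
  rw [h1] at h2
  simp at h2

/-- a function on the disc bounded by one with nonzero derivative somewhere is strictly bounded -/
lemma strict_of_deriv_ne {g : ℂ → ℂ} (hg : DifferentiableOn ℂ g (ball 0 1)) (h1 : ∀ z ∈ ball (0:ℂ) 1, ‖g z‖ ≤ 1)
    {z₁ : ℂ} (hz₁ : z₁ ∈ ball (0:ℂ) 1) (hne : deriv g z₁ ≠ 0) : ∀ z ∈ ball (0:ℂ) 1, ‖g z‖ < 1 := by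
  intro z hz
  rcases (h1 z hz).lt_or_eq with h | h
  · exact h
  · exfalso
    have hmax : IsMaxOn (norm ∘ g) (ball 0 1) z := by
      intro w hw
      change ‖g w‖ ≤ ‖g z‖
      rw [h]; exact h1 w hw
    have h2 := Complex.eqOn_of_isPreconnected_of_isMaxOn_norm (convex_ball (0:ℂ) 1).isPreconnected isOpen_ball hg hz hmax
    have h3 : g =ᶠ[𝓝 z₁] fun _ => g z := by
      filter_upwards [isOpen_ball.mem_nhds hz₁] with w hw using h2 hw
    apply hne
    rw [h3.deriv_eq]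
    simp

/-- orders of the derivative and the leading derivative -/
lemma order_eq_of_ne {g : ℂ → ℂ} (hg : DifferentiableOn ℂ g (ball 0 1)) {n : ℕ}
    (h1 : (n : ℕ∞) ≤ analyticOrderAt (deriv g) 0) (h2 : iteratedDeriv (n + 1) g 0 ≠ 0) :
    analyticOrderAt (deriv g) 0 = n := by
  have hg' : DifferentiableOn ℂ (deriv g) (ball 0 1) := hg.deriv isOpen_ball
  rw [analyticOrderAt_eq_nat_iff_iteratedDeriv_eq_zero (diffOn_analyticAt hg' zero_mem_ball)]
  refine ⟨(natCast_le_analyticOrderAt_iff_iteratedDeriv_eq_zero (diffOn_analyticAt hg' zero_mem_ball)).1 h1, ?_⟩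
  rwa [← iteratedDeriv_succ']

lemma exists_ne_of_iteratedDeriv {g : ℂ → ℂ} {n : ℕ} (h2 : iteratedDeriv (n + 1) g 0 ≠ 0) :
    ∃ z ∈ ball (0:ℂ) 1, deriv g z ≠ 0 := by
  by_contra hcon
  push Not at hcon
  apply h2
  rw [iteratedDeriv_succ']
  have h3 : deriv g =ᶠ[𝓝 0] fun _ => (0:ℂ) := by
    filter_upwards [isOpen_ball.mem_nhds zero_mem_ball] with w hw using hcon w hw
  rw [h3.iteratedDeriv_eq n]
  cases n <;> simp

lemma InF_const_mul {m : ℂ → ℕ} {f : ℂ → ℂ} (hf : InF m f) (c : ℂ) (hc : c ≠ 0) : InF m (fun z => c * f z) := by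
  obtain ⟨⟨h1, K, hK⟩, h2⟩ := hf
  refine ⟨⟨h1.const_mul c, ‖c‖ * K, fun z hz => ?_⟩, fun z hz => ?_⟩
  · rw [norm_mul]
    have := hK z hz
    gcongr
  · have h3 : deriv (fun z => c * f z) =ᶠ[𝓝 z] (fun _ => c) * deriv f := by
      filter_upwards [isOpen_ball.mem_nhds hz] with w hw
      rw [Pi.mul_apply, deriv_const_mul]
      exact h1.differentiableAt (isOpen_ball.mem_nhds hw)
    have hf' : DifferentiableOn ℂ (deriv f) (ball 0 1) := h1.deriv isOpen_ball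
    rw [analyticOrderAt_congr h3, analyticOrderAt_mul analyticAt_const (diffOn_analyticAt hf' hz)]
    exact (h2 z hz).trans le_add_self

lemma iteratedDeriv_cmul {f : ℂ → ℂ} (hf : DifferentiableOn ℂ f (ball 0 1)) (c : ℂ) (n : ℕ) :
    iteratedDeriv n (fun z => c * f z) 0 = c * iteratedDeriv n f 0 := by
  have h1 : ContDiffAt ℂ n f 0 := (diffOn_analyticAt hf zero_mem_ball).contDiffAt
  exact iteratedDeriv_const_mul c h1

/-- the extremal function has nonzero leading derivative -/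
lemma extremal_pos {m : ℂ → ℕ} (hm : IsCritSet m) {g : ℂ → ℂ} (hg : IsExtremal m g) :
    0 < (iteratedDeriv (m 0 + 1) g 0).re := by
  obtain ⟨h, ⟨hd, K, hK⟩, -, hord⟩ := hm
  have hh' : DifferentiableOn ℂ (deriv h) (ball 0 1) := hd.deriv isOpen_ball
  have h1 := (analyticOrderAt_eq_nat_iff_iteratedDeriv_eq_zero (diffOn_analyticAt hh' zero_mem_ball)).1 (hord 0 zero_mem_ball)
  have h2 : iteratedDeriv (m 0 + 1) h 0 ≠ 0 := by
    rw [iteratedDeriv_succ']; exact h1.2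
  set v := iteratedDeriv (m 0 + 1) h 0 with hv
  have hK1 : ∀ z ∈ ball (0:ℂ) 1, ‖h z‖ ≤ |K| + 1 := fun z hz => (hK z hz).trans (by linarith [le_abs_self K])
  set c : ℂ := conj v / ((‖v‖ * (|K| + 1) : ℝ) : ℂ) with hc
  have hvn : 0 < ‖v‖ := norm_pos_iff.2 h2
  have hKp : 0 < |K| + 1 := by positivity
  have hcn : ‖c‖ = 1 / (|K| + 1) := by
    rw [hc, norm_div, Complex.norm_conj, Complex.norm_real, Real.norm_of_nonneg (by positivity)]
    field_simp
  have hc0 : c ≠ 0 := norm_ne_zero_iff.1 (by rw [hcn]; positivity)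
  have hmem : InF m h := ⟨⟨hd, K, hK⟩, fun z hz => (hord z hz).ge⟩
  have h3 := hg.2.2 (fun z => c * h z) (InF_const_mul hmem c hc0) (fun z hz => by
    rw [norm_mul, hcn]
    have := hK1 z hz
    rw [div_mul_eq_mul_div, one_mul, div_le_one hKp]
    exact this)
  refine lt_of_lt_of_le ?_ h3
  rw [iteratedDeriv_cmul hd, ← hv]
  have h4 : c * v = ((‖v‖ / (|K| + 1) : ℝ) : ℂ) := by
    rw [hc, div_mul_eq_mul_div, Complex.conj_mul']
    push_cast
    have e1 : (‖v‖ : ℂ) ≠ 0 := by exact_mod_cast hvn.ne'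
    have e2 : ((|K| : ℝ) : ℂ) + 1 ≠ 0 := by exact_mod_cast hKp.ne'
    field_simp
  rw [h4, Complex.ofReal_re]
  positivity

/-- the core statement: an extremal composition has a factor which is extremal in the sense of
leading coefficients -/
theorem core {m : ℂ → ℕ} {g B C f : ℂ → ℂ} (hm : IsCritSet m) (hg : IsExtremal m g)
    (hBd : DifferentiableOn ℂ B (ball 0 1)) (hB : ∀ z ∈ ball (0:ℂ) 1, ‖B z‖ < 1)
    (hCd : DifferentiableOn ℂ C (ball 0 1)) (hC : ∀ z ∈ ball (0:ℂ) 1, ‖C z‖ < 1)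
    (hcomp : ∀ z ∈ ball (0:ℂ) 1, g z = B (C z))
    (hfd : DifferentiableOn ℂ f (ball 0 1)) (hf : ∀ z ∈ ball (0:ℂ) 1, ‖f z‖ < 1)
    {M : ℕ} (hM : analyticOrderAt (deriv C) 0 = M)
    (hord : ∀ z ∈ ball (0:ℂ) 1, analyticOrderAt (deriv C) z ≤ analyticOrderAt (deriv f) z) :
    ‖iteratedDeriv (M + 1) f 0‖ * (1 - ‖C 0‖ ^ 2) ≤ ‖iteratedDeriv (M + 1) C 0‖ := by
  have hpos := extremal_pos hm hg
  have hgd := hg.1.1.1
  have hB'd : DifferentiableOn ℂ (deriv B) (ball 0 1) := hBd.deriv isOpen_ball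
  have hC'd : DifferentiableOn ℂ (deriv C) (ball 0 1) := hCd.deriv isOpen_ball
  have hf'd : DifferentiableOn ℂ (deriv f) (ball 0 1) := hfd.deriv isOpen_ball
  have hg'd : DifferentiableOn ℂ (deriv g) (ball 0 1) := hgd.deriv isOpen_ball
  have hBC : DifferentiableOn ℂ (fun z => deriv B (C z)) (ball 0 1) :=
    hB'd.comp hCd fun x hx => mem_ball_zero_iff.2 (hC x hx)
  have hgderiv : ∀ z ∈ ball (0:ℂ) 1, deriv g z = deriv B (C z) * deriv C z := by
    intro z hz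
    have h1 : g =ᶠ[𝓝 z] B ∘ C := by
      filter_upwards [isOpen_ball.mem_nhds hz] with w hw using hcomp w hw
    have hBat := hBd.differentiableAt (isOpen_ball.mem_nhds (mem_ball_zero_iff.2 (hC z hz)))
    have hCat := hCd.differentiableAt (isOpen_ball.mem_nhds hz)
    rw [h1.deriv_eq]
    exact (hBat.hasDerivAt.comp z hCat.hasDerivAt).deriv
  have hgev : ∀ z ∈ ball (0:ℂ) 1, deriv g =ᶠ[𝓝 z] fun z => deriv B (C z) * deriv C z := by
    intro z hz
    filter_upwards [isOpen_ball.mem_nhds hz] with w hw using hgderiv w hw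
  have hgne : iteratedDeriv (m 0 + 1) g 0 ≠ 0 := by
    intro h; rw [h] at hpos; simp at hpos
  obtain ⟨z₁, hz₁, hz₁ne⟩ := exists_ne_of_iteratedDeriv hgne
  have hne : deriv B (C z₁) * deriv C z₁ ≠ 0 := by rw [← hgderiv z₁ hz₁]; exact hz₁ne
  obtain ⟨D, hDd, hD1, hD0, hDord, hDineq⟩ := competitor hBd hB hCd hC hfd hf hz₁ hne hord
  have hD'd : DifferentiableOn ℂ (deriv D) (ball 0 1) := hDd.deriv isOpen_ball
  have hDF : InF m D := by
    refine ⟨⟨hDd, 1, hD1⟩, fun z hz => ?_⟩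
    refine (hg.1.2 z hz).trans ?_
    rw [analyticOrderAt_congr (hgev z hz)]
    exact hDord z hz
  -- the leading derivative of D
  have hDle : ‖iteratedDeriv (m 0 + 1) D 0‖ ≤ ‖iteratedDeriv (m 0 + 1) g 0‖ := by
    set v := iteratedDeriv (m 0 + 1) D 0 with hv
    by_cases h0 : v = 0
    · rw [h0, norm_zero]; exact norm_nonneg _
    · have hvn : 0 < ‖v‖ := norm_pos_iff.2 h0
      set c : ℂ := conj v / (‖v‖ : ℂ) with hc
      have hcn : ‖c‖ = 1 := by
        rw [hc, norm_div, Complex.norm_conj, Complex.norm_real, Real.norm_of_nonneg hvn.le, div_self hvn.ne']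
      have hc0 : c ≠ 0 := norm_ne_zero_iff.1 (by rw [hcn]; norm_num)
      have h3 := hg.2.2 (fun z => c * D z) (InF_const_mul hDF c hc0) (fun z hz => by
        rw [norm_mul, hcn, one_mul]; exact hD1 z hz)
      rw [iteratedDeriv_cmul hDd, ← hv] at h3
      have h4 : c * v = (‖v‖ : ℂ) := by
        rw [hc, div_mul_eq_mul_div, Complex.conj_mul']
        have e1 : (‖v‖ : ℂ) ≠ 0 := by exact_mod_cast hvn.ne'
        field_simp
      rw [h4, Complex.ofReal_re] at h3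
      exact h3.trans (Complex.re_le_norm _)
  -- limits at the origin
  have hBC0 : AnalyticAt ℂ (fun z => deriv B (C z)) 0 := diffOn_analyticAt hBC zero_mem_ball
  have hC'0 := diffOn_analyticAt hC'd zero_mem_ball
  have hf'0 := diffOn_analyticAt hf'd zero_mem_ball
  have hg'0 := diffOn_analyticAt hg'd zero_mem_ball
  have hD'0 := diffOn_analyticAt hD'd zero_mem_ball
  have hgord : analyticOrderAt (deriv g) 0 = m 0 := order_eq_of_ne hgd (hg.1.2 0 zero_mem_ball) hgne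
  have hsum : analyticOrderAt (fun z => deriv B (C z)) 0 + analyticOrderAt (deriv C) 0 = m 0 := by
    rw [← hgord, analyticOrderAt_congr (hgev 0 zero_mem_ball)]
    exact (analyticOrderAt_mul hBC0 hC'0).symm
  have hsfin : analyticOrderAt (fun z => deriv B (C z)) 0 ≠ ⊤ := by
    intro h
    rw [h, top_add] at hsum
    exact ENat.natCast_ne_top _ hsum.symm
  obtain ⟨s, hs⟩ := ENat.ne_top_iff_exists.1 hsfin
  have hsm : s + M = m 0 := by
    rw [← hs, hM] at hsum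
    exact_mod_cast hsum
  have hsne : iteratedDeriv s (fun z => deriv B (C z)) 0 ≠ 0 :=
    ((analyticOrderAt_eq_nat_iff_iteratedDeriv_eq_zero hBC0).1 hs.symm).2
  have l1 := lead hBC0 hs.le
  have l2 := lead hC'0 hM.ge
  have l3 := lead hf'0 (hM.ge.trans (hord 0 zero_mem_ball))
  have l4 := lead hg'0 hgord.ge
  have l5 := lead hD'0 (hDF.2 0 zero_mem_ball)
  rw [← iteratedDeriv_succ'] at l2 l3 l4 l5
  set β := iteratedDeriv s (fun z => deriv B (C z)) 0 / (s.factorial : ℂ) with hβ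
  have hβ0 : β ≠ 0 := div_ne_zero hsne (by exact_mod_cast s.factorial_ne_zero)
  have hprod : β * (iteratedDeriv (M + 1) C 0 / M.factorial) = iteratedDeriv (m 0 + 1) g 0 / (m 0).factorial := by
    refine tendsto_nhds_unique ((l1.mul l2).congr' ?_) l4
    filter_upwards [self_mem_nhdsWithin, nhdsWithin_le_nhds (isOpen_ball.mem_nhds zero_mem_ball)] with z hz hzb
    have hz0 : z ≠ 0 := hz
    rw [hgderiv z hzb, ← hsm, pow_add]
    have e1 := pow_ne_zero s hz0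
    have e2 := pow_ne_zero M hz0
    field_simp
  -- pass to the limit in the inequality
  have hCc := (diffOn_analyticAt hCd zero_mem_ball).continuousAt
  have hDc := (diffOn_analyticAt hDd zero_mem_ball).continuousAt
  have hfc := (diffOn_analyticAt hfd zero_mem_ball).continuousAt
  have hgc := (diffOn_analyticAt hgd zero_mem_ball).continuousAt
  have hlim1 : Tendsto (fun z => ‖deriv B (C z) / z ^ s * (deriv f z / z ^ M)‖ * ((1 - ‖C z‖ ^ 2) * (1 - ‖D z‖ ^ 2)))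
      (𝓝[≠] 0) (𝓝 (‖β * (iteratedDeriv (M + 1) f 0 / M.factorial)‖ * ((1 - ‖C 0‖ ^ 2) * (1 - ‖D 0‖ ^ 2)))) := by
    refine (l1.mul l3).norm.mul ?_
    apply Tendsto.mono_left _ nhdsWithin_le_nhds
    exact ((hCc.norm.pow 2).const_sub 1).mul ((hDc.norm.pow 2).const_sub 1)
  have hlim2 : Tendsto (fun z => ‖deriv D z / z ^ (m 0)‖ * ((1 - ‖g z‖ ^ 2) * (1 - ‖f z‖ ^ 2)))
      (𝓝[≠] 0) (𝓝 (‖iteratedDeriv (m 0 + 1) D 0 / (m 0).factorial‖ * ((1 - ‖g 0‖ ^ 2) * (1 - ‖f 0‖ ^ 2)))) := by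
    refine l5.norm.mul ?_
    apply Tendsto.mono_left _ nhdsWithin_le_nhds
    exact ((hgc.norm.pow 2).const_sub 1).mul ((hfc.norm.pow 2).const_sub 1)
  have hkey : ‖β * (iteratedDeriv (M + 1) f 0 / M.factorial)‖ * ((1 - ‖C 0‖ ^ 2) * (1 - ‖D 0‖ ^ 2)) ≤
      ‖iteratedDeriv (m 0 + 1) D 0 / (m 0).factorial‖ * ((1 - ‖g 0‖ ^ 2) * (1 - ‖f 0‖ ^ 2)) := by
    refine le_of_tendsto_of_tendsto hlim1 hlim2 ?_
    filter_upwards [self_mem_nhdsWithin, nhdsWithin_le_nhds (isOpen_ball.mem_nhds zero_mem_ball)] with z hz hzb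
    have hz0 : z ≠ 0 := hz
    have h1 := hDineq z hzb
    rw [← hcomp z hzb] at h1
    have h2 : ‖deriv B (C z) / z ^ s * (deriv f z / z ^ M)‖ = ‖deriv B (C z) * deriv f z‖ / ‖z‖ ^ (m 0) := by
      rw [← hsm, pow_add, norm_mul, norm_div, norm_div, norm_mul, norm_pow, norm_pow, div_mul_div_comm]
    rw [h2, norm_div, norm_pow, div_mul_eq_mul_div, div_mul_eq_mul_div]
    gcongr
  rw [hD0, norm_zero, zero_pow two_ne_zero, sub_zero, mul_one] at hkey
  have hg0 : ‖g 0‖ ≤ 1 := hg.2.1 0 zero_mem_ball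
  have hf0 := hf 0 zero_mem_ball
  have e1 : (1 - ‖g 0‖ ^ 2) * (1 - ‖f 0‖ ^ 2) ≤ 1 := by
    have h1 : 0 ≤ 1 - ‖g 0‖ ^ 2 := by nlinarith [norm_nonneg (g 0)]
    have h2 : 0 ≤ 1 - ‖f 0‖ ^ 2 := (one_sub_sq_pos hf0).le
    have h3 : 1 - ‖g 0‖ ^ 2 ≤ 1 := by nlinarith [sq_nonneg ‖g 0‖]
    have h4 : 1 - ‖f 0‖ ^ 2 ≤ 1 := by nlinarith [sq_nonneg ‖f 0‖]
    exact mul_le_one₀ h3 h2 h4
  have e2 : ‖iteratedDeriv (m 0 + 1) D 0 / (m 0).factorial‖ * ((1 - ‖g 0‖ ^ 2) * (1 - ‖f 0‖ ^ 2)) ≤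
      ‖iteratedDeriv (m 0 + 1) g 0 / (m 0).factorial‖ := by
    have h1 : ‖iteratedDeriv (m 0 + 1) D 0 / (m 0).factorial‖ ≤ ‖iteratedDeriv (m 0 + 1) g 0 / (m 0).factorial‖ := by
      rw [norm_div, norm_div]
      gcongr
    calc _ ≤ ‖iteratedDeriv (m 0 + 1) D 0 / (m 0).factorial‖ * 1 := by gcongr
      _ ≤ _ := by rw [mul_one]; exact h1
  rw [← hprod] at e2
  have e3 := hkey.trans e2
  rw [norm_mul, norm_mul, mul_assoc] at e3
  have hβn : 0 < ‖β‖ := norm_pos_iff.2 hβ0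
  have e4 := le_of_mul_le_mul_left e3 hβn
  rw [norm_div, norm_div, div_mul_eq_mul_div] at e4
  have hfac : 0 < ‖((M.factorial : ℕ) : ℂ)‖ := norm_pos_iff.2 (by exact_mod_cast M.factorial_ne_zero)
  exact (div_le_div_iff_of_pos_right hfac).1 e4

end Pool.Agent.N279.MBP
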