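import Pool.Agent.N279.MBP.Compare2
import Pool.Agent.Helper114.MontelSol

/-!
The limit of the dominating finite Blaschke products.
-/

open Complex Filter Topology Metric
open scoped ComplexConjugate
open Pool.Agent.Helper203.NS

namespace Pool.Agent.N279.MBP

lemma lead {φ : ℂ → ℂ} (hφ : AnalyticAt ℂ φ 0) {n : ℕ} (hn : (n : ℕ∞) ≤ analyticOrderAt φ 0) :
    Tendsto (fun z => φ z / z ^ n) (𝓝[≠] 0) (𝓝 (iteratedDeriv n φ 0 / n.factorial)) := by
  obtain ⟨F, hF, hFe⟩ := hφ.exists_eventuallyEq_sum_add_pow_mul (n + 1)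
  have hz := (natCast_le_analyticOrderAt_iff_iteratedDeriv_eq_zero hφ).1 hn
  have h1 : Tendsto (fun z => iteratedDeriv n φ 0 / n.factorial + z * F z) (𝓝[≠] 0)
      (𝓝 (iteratedDeriv n φ 0 / n.factorial + 0 * F 0)) := by
    apply Tendsto.mono_left _ nhdsWithin_le_nhds
    exact tendsto_const_nhds.add (tendsto_id.mul hF.continuousAt.tendsto)
  rw [zero_mul, add_zero] at h1
  refine h1.congr' ?_
  filter_upwards [nhdsWithin_le_nhds hFe, self_mem_nhdsWithin] with z h2 h3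
  have hz0 : z ≠ 0 := h3
  rw [h2, Finset.sum_range_succ, Finset.sum_eq_zero, zero_add]
  · simp only [smul_eq_mul]
    have := pow_ne_zero n hz0
    field_simp
    ring
  · intro i hi
    rw [hz i (Finset.mem_range.1 hi), smul_zero]

lemma order_PL (l : List ℂ) (z : ℂ) : (l.count z : ℕ∞) ≤ analyticOrderAt (PL l) z := by
  induction l with
  | nil => simp
  | cons a l ih =>
    have h1 : PL (a :: l) = (fun z => z - a) * PL l := funext (PL_cons a l)
    rw [h1, analyticOrderAt_mul (by fun_prop) ((PL_differentiable l).analyticAt z), List.count_cons]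
    by_cases hza : z = a
    · subst hza
      rw [analyticOrderAt_id_sub_const_self]
      simp only [beq_self_eq_true, if_true, Nat.cast_add, Nat.cast_one]
      rw [add_comm]
      gcongr
    · rw [analyticOrderAt_id_sub_const_of_ne hza, zero_add]
      have h2 : (a == z) = false := by
        rw [beq_eq_false_iff_ne]; exact fun h => hza h.symm
      rw [h2]
      simpa using ih

/-- the comparison function may be normalised at the origin -/
theorem exists_dominating0 {B C f : ℂ → ℂ} {l : List ℂ} (hl : ∀ a ∈ l, a ∈ ball (0:ℂ) 1)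
    (hBd : DifferentiableOn ℂ B (ball 0 1)) (hB : ∀ z ∈ ball (0:ℂ) 1, ‖B z‖ < 1)
    (hCd : DifferentiableOn ℂ C (ball 0 1)) (hC : ∀ z ∈ ball (0:ℂ) 1, ‖C z‖ < 1)
    (hfd : DifferentiableOn ℂ f (ball 0 1)) (hf : ∀ z ∈ ball (0:ℂ) 1, ‖f z‖ < 1)
    (ha : ∀ z ∈ ball (0:ℂ) 1, (l.count z : ℕ∞) ≤ analyticOrderAt (fun z => deriv B (C z) * deriv C z) z)
    (hb : ∀ z ∈ ball (0:ℂ) 1, (l.count z : ℕ∞) ≤ analyticOrderAt (fun z => deriv B (C z) * deriv f z) z) :
    ∃ D : ℂ → ℂ, DifferentiableOn ℂ D (ball 0 1) ∧ (∀ z ∈ ball (0:ℂ) 1, ‖D z‖ < 1) ∧ D 0 = 0 ∧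
      (∀ z ∈ ball (0:ℂ) 1, (l.count z : ℕ∞) ≤ analyticOrderAt (deriv D) z) ∧
      ∀ z ∈ ball (0:ℂ) 1, ‖deriv B (C z) * deriv f z‖ * ((1 - ‖C z‖ ^ 2) * (1 - ‖D z‖ ^ 2)) ≤
        ‖deriv D z‖ * ((1 - ‖B (C z)‖ ^ 2) * (1 - ‖f z‖ ^ 2)) := by
  obtain ⟨D, g, hDd, hD, hgd, hg, hDg, hineq⟩ := exists_dominating hl hBd hB hCd hC hfd hf ha hb
  have h00 : (0:ℂ) ∈ ball (0:ℂ) 1 := by simp
  have hD0 := hD 0 h00
  set d := D 0 with hd
  set E : ℂ → ℂ := fun z => (D z - d) / (1 - conj d * D z) with hE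
  have hEderiv : ∀ z ∈ ball (0:ℂ) 1, HasDerivAt E (deriv D z * ((1 - ‖d‖ ^ 2 : ℝ) : ℂ) / (1 - conj d * D z) ^ 2) z := by
    intro z hz
    have h1 := (hDd.differentiableAt (isOpen_ball.mem_nhds hz)).hasDerivAt
    have h2 := (h1.sub_const d).div ((h1.const_mul (conj d)).const_sub 1) (one_sub_ne hD0 (hD z hz))
    have h3 : (deriv D z * (1 - conj d * D z) - (D z - d) * -(conj d * deriv D z)) / (1 - conj d * D z) ^ 2 =
        deriv D z * ((1 - ‖d‖ ^ 2 : ℝ) : ℂ) / (1 - conj d * D z) ^ 2 := by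
      congr 1
      have := Complex.conj_mul' d
      push_cast
      rw [← this]
      ring
    rw [h3] at h2
    exact h2
  have hEd : DifferentiableOn ℂ E (ball 0 1) := fun z hz => (hEderiv z hz).differentiableAt.differentiableWithinAt
  have hE1 : ∀ z ∈ ball (0:ℂ) 1, ‖E z‖ < 1 := fun z hz => mob_lt hD0 (hD z hz)
  refine ⟨E, hEd, hE1, ?_, fun z hz => ?_, fun z hz => ?_⟩
  · rw [hE]
    simp only
    rw [← hd, sub_self, zero_div]
  · -- order
    have hev : deriv E =ᶠ[𝓝 z] PL l * fun z => g z * ((1 - ‖d‖ ^ 2 : ℝ) : ℂ) / (1 - conj d * D z) ^ 2 := by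
      filter_upwards [isOpen_ball.mem_nhds hz] with x hx
      rw [(hEderiv x hx).deriv, hDg x hx, Pi.mul_apply]
      ring
    have han : AnalyticAt ℂ (fun z => g z * ((1 - ‖d‖ ^ 2 : ℝ) : ℂ) / (1 - conj d * D z) ^ 2) z := by
      refine AnalyticAt.div ((diffOn_analyticAt hgd hz).mul analyticAt_const) ?_ (pow_ne_zero _ (one_sub_ne hD0 (hD z hz)))
      exact (analyticAt_const.sub (analyticAt_const.mul (diffOn_analyticAt hDd hz))).pow 2
    rw [analyticOrderAt_congr hev, analyticOrderAt_mul ((PL_differentiable l).analyticAt z) han]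
    exact (order_PL l z).trans le_self_add
  · have h1 := hineq z hz
    have h2 := mob_id d (D z)
    have hx : 0 < ‖1 - conj d * D z‖ := norm_pos_iff.2 (one_sub_ne hD0 (hD z hz))
    have hd1 := one_sub_sq_pos hD0
    have h3 : 1 - ‖E z‖ ^ 2 = (1 - ‖d‖ ^ 2) * (1 - ‖D z‖ ^ 2) / ‖1 - conj d * D z‖ ^ 2 := by
      rw [hE]
      simp only
      rw [norm_div, div_pow, eq_div_iff (by positivity), sub_mul, one_mul, div_mul_cancel₀ _ (by positivity), h2]
    have h4 : ‖deriv E z‖ = ‖deriv D z‖ * (1 - ‖d‖ ^ 2) / ‖1 - conj d * D z‖ ^ 2 := by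
      rw [(hEderiv z hz).deriv, norm_div, norm_mul, norm_pow, Complex.norm_real, Real.norm_of_nonneg hd1.le]
    rw [h3, h4]
    calc ‖deriv B (C z) * deriv f z‖ * ((1 - ‖C z‖ ^ 2) * ((1 - ‖d‖ ^ 2) * (1 - ‖D z‖ ^ 2) / ‖1 - conj d * D z‖ ^ 2)) =
        (‖deriv B (C z) * deriv f z‖ * ((1 - ‖C z‖ ^ 2) * (1 - ‖D z‖ ^ 2))) * ((1 - ‖d‖ ^ 2) / ‖1 - conj d * D z‖ ^ 2) := by ring
      _ ≤ (‖deriv D z‖ * ((1 - ‖B (C z)‖ ^ 2) * (1 - ‖f z‖ ^ 2))) * ((1 - ‖d‖ ^ 2) / ‖1 - conj d * D z‖ ^ 2) := by gcongr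
      _ = _ := by ring

lemma tlu_iteratedDeriv {F : ℕ → ℂ → ℂ} {D : ℂ → ℂ} {φ : Filter ℕ} [φ.NeBot]
    (hF : ∀ n, DifferentiableOn ℂ (F n) (ball 0 1)) (h : TendstoLocallyUniformlyOn F D φ (ball 0 1)) (i : ℕ) :
    TendstoLocallyUniformlyOn (fun n => iteratedDeriv i (F n)) (iteratedDeriv i D) φ (ball 0 1) ∧
      ∀ n, DifferentiableOn ℂ (iteratedDeriv i (F n)) (ball 0 1) := by
  induction i with
  | zero => simpa using ⟨h, hF⟩
  | succ i ih =>
    obtain ⟨h1, h2⟩ := ih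
    refine ⟨?_, fun n => ?_⟩
    · have h3 := h1.deriv (Eventually.of_forall h2) isOpen_ball
      simp_rw [iteratedDeriv_succ]
      exact h3
    · rw [iteratedDeriv_succ]
      exact (h2 n).deriv isOpen_ball

/-- the competitor -/
theorem competitor {B C f : ℂ → ℂ}
    (hBd : DifferentiableOn ℂ B (ball 0 1)) (hB : ∀ z ∈ ball (0:ℂ) 1, ‖B z‖ < 1)
    (hCd : DifferentiableOn ℂ C (ball 0 1)) (hC : ∀ z ∈ ball (0:ℂ) 1, ‖C z‖ < 1)
    (hfd : DifferentiableOn ℂ f (ball 0 1)) (hf : ∀ z ∈ ball (0:ℂ) 1, ‖f z‖ < 1)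
    {z₁ : ℂ} (hz₁ : z₁ ∈ ball (0:ℂ) 1) (hne : deriv B (C z₁) * deriv C z₁ ≠ 0)
    (hord : ∀ z ∈ ball (0:ℂ) 1, analyticOrderAt (deriv C) z ≤ analyticOrderAt (deriv f) z) :
    ∃ D : ℂ → ℂ, DifferentiableOn ℂ D (ball 0 1) ∧ (∀ z ∈ ball (0:ℂ) 1, ‖D z‖ ≤ 1) ∧ D 0 = 0 ∧
      (∀ z ∈ ball (0:ℂ) 1, analyticOrderAt (fun z => deriv B (C z) * deriv C z) z ≤ analyticOrderAt (deriv D) z) ∧
      ∀ z ∈ ball (0:ℂ) 1, ‖deriv B (C z) * deriv f z‖ * ((1 - ‖C z‖ ^ 2) * (1 - ‖D z‖ ^ 2)) ≤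
        ‖deriv D z‖ * ((1 - ‖B (C z)‖ ^ 2) * (1 - ‖f z‖ ^ 2)) := by
  have hB'd : DifferentiableOn ℂ (deriv B) (ball 0 1) := hBd.deriv isOpen_ball
  have hC'd : DifferentiableOn ℂ (deriv C) (ball 0 1) := hCd.deriv isOpen_ball
  have hf'd : DifferentiableOn ℂ (deriv f) (ball 0 1) := hfd.deriv isOpen_ball
  have hBC : DifferentiableOn ℂ (fun z => deriv B (C z)) (ball 0 1) :=
    hB'd.comp hCd fun x hx => mem_ball_zero_iff.2 (hC x hx)
  have hG : DifferentiableOn ℂ (fun z => deriv B (C z) * deriv C z) (ball 0 1) := hBC.mul hC'd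
  have hordf : ∀ z ∈ ball (0:ℂ) 1, analyticOrderAt (fun z => deriv B (C z) * deriv C z) z ≤
      analyticOrderAt (fun z => deriv B (C z) * deriv f z) z := by
    intro z hz
    have h1 : analyticOrderAt (fun z => deriv B (C z) * deriv C z) z =
        analyticOrderAt (fun z => deriv B (C z)) z + analyticOrderAt (deriv C) z :=
      analyticOrderAt_mul (diffOn_analyticAt hBC hz) (diffOn_analyticAt hC'd hz)
    have h2 : analyticOrderAt (fun z => deriv B (C z) * deriv f z) z =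
        analyticOrderAt (fun z => deriv B (C z)) z + analyticOrderAt (deriv f) z :=
      analyticOrderAt_mul (diffOn_analyticAt hBC hz) (diffOn_analyticAt hf'd hz)
    rw [h1, h2]
    have := hord z hz
    gcongr
  have hR : ∀ n : ℕ, (1 : ℝ) - 1 / (n + 2) < 1 := fun n => by
    have : (0:ℝ) < 1 / (n + 2) := by positivity
    linarith
  choose l hl hle heq using fun n : ℕ => exists_list hG hz₁ hne (hR n)
  choose D hDd hD hD0 hDord hDineq using fun n : ℕ => exists_dominating0 (hl n) hBd hB hCd hC hfd hf (hle n)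
    fun z hz => (hle n z hz).trans (hordf z hz)
  set 𝒰 := Filter.hyperfilter ℕ with h𝒰
  obtain ⟨Φ, hΦd, hΦ⟩ := Pool.Agent.Helper114.Montel.montel isOpen_ball D hDd 1 (fun n z hz => (hD n z hz).le) 𝒰
  have hpt : ∀ i : ℕ, ∀ z ∈ ball (0:ℂ) 1, Tendsto (fun n => iteratedDeriv i (D n) z) 𝒰 (𝓝 (iteratedDeriv i Φ z)) :=
    fun i z hz => (tlu_iteratedDeriv hDd hΦ i).1.tendsto_at hz
  have hpt0 : ∀ z ∈ ball (0:ℂ) 1, Tendsto (fun n => D n z) 𝒰 (𝓝 (Φ z)) := fun z hz => by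
    simpa using hpt 0 z hz
  have hpt1 : ∀ z ∈ ball (0:ℂ) 1, Tendsto (fun n => deriv (D n) z) 𝒰 (𝓝 (deriv Φ z)) := fun z hz => by
    simpa using hpt 1 z hz
  have h00 : (0:ℂ) ∈ ball (0:ℂ) 1 := by simp
  refine ⟨Φ, hΦd, fun z hz => ?_, ?_, fun z hz => ?_, fun z hz => ?_⟩
  · exact le_of_tendsto (hpt0 z hz).norm (Eventually.of_forall fun n => (hD n z hz).le)
  · have h1 := hpt0 0 h00
    simp_rw [hD0] at h1
    exact tendsto_nhds_unique h1 tendsto_const_nhds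
  · have hfin := order_ne_top hG hz₁ hne hz
    rw [← Nat.cast_analyticOrderNatAt hfin]
    set m := analyticOrderNatAt (fun z => deriv B (C z) * deriv C z) z with hm
    have hΦ'd : DifferentiableOn ℂ (deriv Φ) (ball 0 1) := hΦd.deriv isOpen_ball
    rw [natCast_le_analyticOrderAt_iff_iteratedDeriv_eq_zero (diffOn_analyticAt hΦ'd hz)]
    intro i hi
    have h1 := hpt (i + 1) z hz
    have h2 : ∀ᶠ n in (𝒰 : Filter ℕ), iteratedDeriv (i + 1) (D n) z = 0 := by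
      have h3 : ∀ᶠ n : ℕ in atTop, ‖z‖ ≤ 1 - 1 / (n + 2) := by
        have h4 : Tendsto (fun n : ℕ => (1:ℝ) - 1 / (n + 2)) atTop (𝓝 1) := by
          have h5 : Tendsto (fun n : ℕ => (1:ℝ) / (n + 2)) atTop (𝓝 0) := by
            have h6 := (tendsto_add_atTop_iff_nat (f := fun n : ℕ => (1:ℝ) / n) 2).2 tendsto_one_div_atTop_nhds_zero_nat
            simpa using h6
          simpa using h5.const_sub 1
        filter_upwards [h4.eventually (lt_mem_nhds (mem_ball_zero_iff.1 hz))] with n hn using hn.le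
      have h4 : ∀ᶠ n : ℕ in (𝒰 : Filter ℕ), ‖z‖ ≤ 1 - 1 / (n + 2) := by
        have hle : (𝒰 : Filter ℕ) ≤ atTop := by
          rw [h𝒰, ← Nat.cofinite_eq_atTop]
          exact Filter.hyperfilter_le_cofinite
        exact hle h3
      filter_upwards [h4] with n hn
      have h5 : ((m : ℕ) : ℕ∞) ≤ analyticOrderAt (deriv (D n)) z := by
        have h6 := heq n z (mem_closedBall_zero_iff.2 hn)
        have h7 := hDord n z hz
        rw [h6] at h7
        rw [hm, Nat.cast_analyticOrderNatAt hfin]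
        exact h7
      have hDn'd : DifferentiableOn ℂ (deriv (D n)) (ball 0 1) := (hDd n).deriv isOpen_ball
      have h8 := (natCast_le_analyticOrderAt_iff_iteratedDeriv_eq_zero (diffOn_analyticAt hDn'd hz)).1 h5 i hi
      rw [iteratedDeriv_succ']
      exact h8
    have h3 : iteratedDeriv (i + 1) Φ z = 0 :=
      tendsto_nhds_unique h1 (tendsto_const_nhds.congr' (h2.mono fun n hn => hn.symm))
    rw [← iteratedDeriv_succ']
    exact h3
  · have h1 := (hpt0 z hz).norm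
    have h2 := (hpt1 z hz).norm
    refine le_of_tendsto_of_tendsto ?_ (h2.mul_const _) (Eventually.of_forall fun n => hDineq n z hz)
    exact ((tendsto_const_nhds.mul ((h1.pow 2).const_sub 1))).const_mul _

end Pool.Agent.N279.MBP
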