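import Pool.Agent.Helper203.NSBase

/-!
The local step of the comparison principle.
-/

open Complex Filter Topology Metric
open scoped ComplexConjugate
open Pool.Agent.Helper203.NS

namespace Pool.Agent.N279.MBP

/-- the hyperbolic derivative -/
noncomputable def lamb (g : ℂ → ℂ) (z : ℂ) : ℝ := ‖deriv g z‖ / (1 - ‖g z‖ ^ 2)

lemma one_sub_sq_pos {x : ℂ} (hx : ‖x‖ < 1) : 0 < 1 - ‖x‖ ^ 2 := by nlinarith [norm_nonneg x]

/-- the pseudo-hyperbolic difference -/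
noncomputable def mob (a b : ℂ) : ℂ := (b - a) / (1 - conj a * b)

lemma mob_sq {a b : ℂ} (ha : ‖a‖ < 1) (hb : ‖b‖ < 1) :
    1 - ‖b‖ ^ 2 = (1 - ‖mob a b‖ ^ 2) * ‖1 - conj a * b‖ ^ 2 / (1 - ‖a‖ ^ 2) := by
  have h1 := mob_id a b
  have h2 : ‖1 - conj a * b‖ ≠ 0 := norm_ne_zero_iff.2 (one_sub_ne ha hb)
  have h3 := one_sub_sq_pos ha
  unfold mob
  rw [norm_div, eq_div_iff h3.ne', div_pow]
  generalize ‖1 - conj a * b‖ = X at h1 h2 ⊢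
  generalize ‖b - a‖ = Y at h1 ⊢
  field_simp
  linarith

lemma mob_self (a : ℂ) : mob a a = 0 := by
  unfold mob; simp

lemma mob_limit {g : ℂ → ℂ} {z₀ : ℂ} (hg : DifferentiableAt ℂ g z₀) (h0 : ‖g z₀‖ < 1) :
    Tendsto (fun z => ‖mob (g z₀) (g z)‖ ^ 2 / ‖z - z₀‖ ^ 2) (𝓝[≠] z₀) (𝓝 (lamb g z₀ ^ 2)) := by
  have h1 : Tendsto (fun z => ‖slope g z₀ z‖) (𝓝[≠] z₀) (𝓝 ‖deriv g z₀‖) :=
    (hasDerivAt_iff_tendsto_slope.mp hg.hasDerivAt).norm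
  have h2 : Tendsto (fun z => ‖1 - conj (g z₀) * g z‖) (𝓝[≠] z₀) (𝓝 (1 - ‖g z₀‖ ^ 2)) := by
    have h3 : Tendsto (fun z => ‖1 - conj (g z₀) * g z‖) (𝓝[≠] z₀) (𝓝 ‖1 - conj (g z₀) * g z₀‖) := by
      apply Tendsto.mono_left _ nhdsWithin_le_nhds
      apply Tendsto.norm
      apply Tendsto.const_sub
      apply Tendsto.const_mul
      exact hg.continuousAt.tendsto
    have h4 : ‖1 - conj (g z₀) * g z₀‖ = 1 - ‖g z₀‖ ^ 2 := by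
      rw [Complex.conj_mul']
      have : (1 : ℂ) - (‖g z₀‖ : ℂ) ^ 2 = ((1 - ‖g z₀‖ ^ 2 : ℝ) : ℂ) := by push_cast; ring
      rw [this, Complex.norm_real, Real.norm_of_nonneg (one_sub_sq_pos h0).le]
    rw [h4] at h3
    exact h3
  have h5 := (h1.div h2 (one_sub_sq_pos h0).ne').pow 2
  have h6 : (‖deriv g z₀‖ / (1 - ‖g z₀‖ ^ 2)) ^ 2 = lamb g z₀ ^ 2 := rfl
  rw [h6] at h5
  refine h5.congr' ?_
  filter_upwards [self_mem_nhdsWithin] with z hz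
  have hz' : z - z₀ ≠ 0 := sub_ne_zero.2 hz
  unfold mob
  simp only [Pi.div_apply]
  rw [slope_def_field, norm_div, norm_div]
  ring

lemma mob_tendsto_zero {g : ℂ → ℂ} {z₀ : ℂ} (hg : DifferentiableAt ℂ g z₀) (h0 : ‖g z₀‖ < 1) :
    Tendsto (fun z => ‖mob (g z₀) (g z)‖ ^ 2) (𝓝[≠] z₀) (𝓝 0) := by
  have h1 : ContinuousAt (fun z => ‖mob (g z₀) (g z)‖ ^ 2) z₀ := by
    unfold mob
    refine ContinuousAt.pow (ContinuousAt.norm (ContinuousAt.div (hg.continuousAt.sub continuousAt_const) ?_ (one_sub_ne h0 h0))) 2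
    exact continuousAt_const.sub (continuousAt_const.mul hg.continuousAt)
  have h2 := h1.tendsto.mono_left (nhdsWithin_le_nhds (s := {z₀}ᶜ))
  rw [mob_self] at h2
  simpa using h2

lemma eventually_lt_one {g : ℂ → ℂ} {z₀ : ℂ} (hg : ContinuousAt g z₀) (h0 : ‖g z₀‖ < 1) : ∀ᶠ z in 𝓝 z₀, ‖g z‖ < 1 :=
  hg.norm.eventually (gt_mem_nhds h0)

/-- the local step -/
theorem no_local_max {z₀ : ℂ} {Ψ C D A f : ℂ → ℂ} (hΨ : AnalyticAt ℂ Ψ z₀) (hΨ0 : Ψ z₀ ≠ 0)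
    (hC : AnalyticAt ℂ C z₀) (hD : AnalyticAt ℂ D z₀) (hA : AnalyticAt ℂ A z₀) (hf : AnalyticAt ℂ f z₀)
    (hC0 : ‖C z₀‖ < 1) (hD0 : ‖D z₀‖ < 1) (hA0 : ‖A z₀‖ < 1) (hf0 : ‖f z₀‖ < 1) {k : ℕ} (hk : k ≠ 0)
    (hlam : lamb C z₀ ^ 2 + lamb D z₀ ^ 2 < lamb A z₀ ^ 2 + lamb f z₀ ^ 2)
    (hmax : IsLocalMax (fun z => ‖Ψ z‖ * (((1 - ‖C z‖ ^ 2) * (1 - ‖D z‖ ^ 2)) /
      ((1 - ‖A z‖ ^ 2) * (1 - ‖f z‖ ^ 2))) ^ k) z₀) : False := by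
  have hCd := hC.differentiableAt
  have hDd := hD.differentiableAt
  have hAd := hA.differentiableAt
  have hfd := hf.differentiableAt
  -- the analytic factor
  set Ξ : ℂ → ℂ := fun z => (((1 - conj (C z₀) * C z) * (1 - conj (D z₀) * D z)) /
    ((1 - conj (A z₀) * A z) * (1 - conj (f z₀) * f z))) ^ 2 with hΞ
  set K : ℝ := ((1 - ‖A z₀‖ ^ 2) * (1 - ‖f z₀‖ ^ 2)) / ((1 - ‖C z₀‖ ^ 2) * (1 - ‖D z₀‖ ^ 2)) with hK
  set E : ℂ → ℝ := fun z => ((1 - ‖mob (C z₀) (C z)‖ ^ 2) * (1 - ‖mob (D z₀) (D z)‖ ^ 2)) /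
    ((1 - ‖mob (A z₀) (A z)‖ ^ 2) * (1 - ‖mob (f z₀) (f z)‖ ^ 2)) with hE
  have hKpos : 0 < K := by
    have h1 := one_sub_sq_pos hC0
    have h2 := one_sub_sq_pos hD0
    have h3 := one_sub_sq_pos hA0
    have h4 := one_sub_sq_pos hf0
    positivity
  have hΞan : AnalyticAt ℂ Ξ z₀ := by
    refine AnalyticAt.pow (AnalyticAt.div ?_ ?_ ?_) 2
    · exact (analyticAt_const.sub (analyticAt_const.mul hC)).mul (analyticAt_const.sub (analyticAt_const.mul hD))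
    · exact (analyticAt_const.sub (analyticAt_const.mul hA)).mul (analyticAt_const.sub (analyticAt_const.mul hf))
    · exact mul_ne_zero (one_sub_ne hA0 hA0) (one_sub_ne hf0 hf0)
  have hΞ0 : Ξ z₀ ≠ 0 := by
    refine pow_ne_zero _ (div_ne_zero ?_ ?_)
    · exact mul_ne_zero (one_sub_ne hC0 hC0) (one_sub_ne hD0 hD0)
    · exact mul_ne_zero (one_sub_ne hA0 hA0) (one_sub_ne hf0 hf0)
  have hE0 : E z₀ = 1 := by
    simp [hE, mob_self]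
  have hev : ∀ᶠ z in 𝓝 z₀, ‖C z‖ < 1 ∧ ‖D z‖ < 1 ∧ ‖A z‖ < 1 ∧ ‖f z‖ < 1 := by
    filter_upwards [eventually_lt_one hCd.continuousAt hC0, eventually_lt_one hDd.continuousAt hD0,
      eventually_lt_one hAd.continuousAt hA0, eventually_lt_one hfd.continuousAt hf0] with z h1 h2 h3 h4
      using ⟨h1, h2, h3, h4⟩
  have hfac : ∀ z, ‖C z‖ < 1 → ‖D z‖ < 1 → ‖A z‖ < 1 → ‖f z‖ < 1 →
      ((1 - ‖C z‖ ^ 2) * (1 - ‖D z‖ ^ 2)) / ((1 - ‖A z‖ ^ 2) * (1 - ‖f z‖ ^ 2)) = E z * ‖Ξ z‖ * K := by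
    intro z h1 h2 h3 h4
    rw [mob_sq hC0 h1, mob_sq hD0 h2, mob_sq hA0 h3, mob_sq hf0 h4, hE, hΞ, hK]
    simp only [norm_pow, norm_div, norm_mul]
    have e1 := (one_sub_sq_pos hC0).ne'
    have e2 := (one_sub_sq_pos hD0).ne'
    have e3 := (one_sub_sq_pos hA0).ne'
    have e4 := (one_sub_sq_pos hf0).ne'
    have e5 := norm_ne_zero_iff.2 (one_sub_ne hA0 h3)
    have e6 := norm_ne_zero_iff.2 (one_sub_ne hf0 h4)
    have e7 : 1 - ‖mob (A z₀) (A z)‖ ^ 2 ≠ 0 := (one_sub_sq_pos (mob_lt hA0 h3)).ne'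
    have e8 : 1 - ‖mob (f z₀) (f z)‖ ^ 2 ≠ 0 := (one_sub_sq_pos (mob_lt hf0 h4)).ne'
    field_simp
  -- E > 1 near z₀
  have hE1 : ∀ᶠ z in 𝓝[≠] z₀, 1 < E z := by
    have l1 := mob_limit hCd hC0
    have l2 := mob_limit hDd hD0
    have l3 := mob_limit hAd hA0
    have l4 := mob_limit hfd hf0
    have m1 := mob_tendsto_zero hDd hD0
    have m2 := mob_tendsto_zero hfd hf0
    have hlim := (((l3.add l4).sub l1).sub l2).add ((l1.mul m1).sub (l3.mul m2))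
    have hpos : 0 < lamb A z₀ ^ 2 + lamb f z₀ ^ 2 - lamb C z₀ ^ 2 - lamb D z₀ ^ 2 +
        (lamb C z₀ ^ 2 * 0 - lamb A z₀ ^ 2 * 0) := by linarith
    have h5 := hlim.eventually (lt_mem_nhds hpos)
    filter_upwards [h5, self_mem_nhdsWithin, nhdsWithin_le_nhds hev] with z h6 hz h7
    obtain ⟨g1, g2, g3, g4⟩ := h7
    have hz' : 0 < ‖z - z₀‖ ^ 2 := by
      have := norm_pos_iff.2 (sub_ne_zero.2 hz)
      positivity
    have e7 : 0 < 1 - ‖mob (A z₀) (A z)‖ ^ 2 := one_sub_sq_pos (mob_lt hA0 g3)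
    have e8 : 0 < 1 - ‖mob (f z₀) (f z)‖ ^ 2 := one_sub_sq_pos (mob_lt hf0 g4)
    rw [hE]
    simp only
    rw [one_lt_div (mul_pos e7 e8)]
    set α := ‖mob (A z₀) (A z)‖ ^ 2
    set φ := ‖mob (f z₀) (f z)‖ ^ 2
    set γ := ‖mob (C z₀) (C z)‖ ^ 2
    set δ := ‖mob (D z₀) (D z)‖ ^ 2
    set ρ := ‖z - z₀‖ ^ 2
    have h8 : α / ρ + φ / ρ - γ / ρ - δ / ρ + (γ / ρ * δ - α / ρ * φ) = (α + φ - γ - δ + (γ * δ - α * φ)) / ρ := by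
      field_simp
    rw [h8] at h6
    have h9 := (div_pos_iff_of_pos_right hz').1 h6
    nlinarith
  -- the analytic function
  set G : ℂ → ℂ := fun z => Ψ z * Ξ z ^ k with hG
  have hGan : AnalyticAt ℂ G z₀ := hΨ.mul (hΞan.pow k)
  have hG0 : G z₀ ≠ 0 := mul_ne_zero hΨ0 (pow_ne_zero _ hΞ0)
  have hGne : ∀ᶠ z in 𝓝 z₀, G z ≠ 0 := hGan.continuousAt.eventually_ne hG0
  have hform : ∀ z, ‖C z‖ < 1 → ‖D z‖ < 1 → ‖A z‖ < 1 → ‖f z‖ < 1 →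
      ‖Ψ z‖ * (((1 - ‖C z‖ ^ 2) * (1 - ‖D z‖ ^ 2)) / ((1 - ‖A z‖ ^ 2) * (1 - ‖f z‖ ^ 2))) ^ k =
        ‖G z‖ * E z ^ k * K ^ k := by
    intro z h1 h2 h3 h4
    rw [hfac z h1 h2 h3 h4, hG]
    simp only [norm_mul, norm_pow]
    ring
  have hstrict : ∀ᶠ z in 𝓝[≠] z₀, ‖G z‖ < ‖G z₀‖ := by
    filter_upwards [hE1, nhdsWithin_le_nhds hev, nhdsWithin_le_nhds hGne, nhdsWithin_le_nhds hmax] with z h1 h2 h3 h4
    obtain ⟨g1, g2, g3, g4⟩ := h2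
    rw [hform z g1 g2 g3 g4, hform z₀ hC0 hD0 hA0 hf0, hE0, one_pow, mul_one] at h4
    have h5 : ‖G z‖ * E z ^ k ≤ ‖G z₀‖ := le_of_mul_le_mul_right h4 (pow_pos hKpos k)
    have h6 : 1 < E z ^ k := one_lt_pow₀ h1 hk
    have h7 : 0 < ‖G z‖ := norm_pos_iff.2 h3
    nlinarith
  have hloc : IsLocalMax (norm ∘ G) z₀ := by
    have h1 := eventually_nhdsWithin_iff.1 hstrict
    filter_upwards [h1] with z hz
    by_cases h : z = z₀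
    · rw [h]
    · exact (hz h).le
  have hconst := Complex.eventually_eq_of_isLocalMax_norm
    (hGan.eventually_analyticAt.mono fun z hz => hz.differentiableAt) hloc
  have h1 : ∀ᶠ z in 𝓝[≠] z₀, False := by
    filter_upwards [hstrict, nhdsWithin_le_nhds hconst] with z h2 h3
    rw [h3] at h2
    exact lt_irrefl _ h2
  exact (h1.exists).elim fun _ h => h

end Pool.Agent.N279.MBP
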