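import Pool.Agent.N279.MBP.Final

/-!
The inner factor of a maximal Blaschke product: final assembly.
-/

open Complex Filter Topology Metric
open scoped ComplexConjugate
open Pool.Agent.Helper203.NS

namespace Pool.Agent.N279.MBP

lemma unimod_conj_mul {u : ℂ} (hu : ‖u‖ = 1) : conj u * u = 1 := by
  rw [Complex.conj_mul', hu]; norm_num

lemma alg1 (x a b : ℂ) (h : 1 - b * x ≠ 0) : (x - a) / (1 - b * x) + a = x * (1 - b * a) / (1 - b * x) := by
  rw [eq_div_iff h, add_mul, div_mul_cancel₀ _ h]; ring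

lemma alg2 (x a b : ℂ) (h : 1 - b * x ≠ 0) : 1 + b * ((x - a) / (1 - b * x)) = (1 - b * a) / (1 - b * x) := by
  rw [eq_div_iff h, add_mul, mul_assoc, div_mul_cancel₀ _ h]; ring

lemma alg3 (x a b : ℂ) (h : 1 - b * x ≠ 0) (h2 : 1 - b * a ≠ 0) :
    (x * (1 - b * a) / (1 - b * x)) / ((1 - b * a) / (1 - b * x)) = x := by
  rw [div_div_div_cancel_right₀ h, mul_div_cancel_right₀ _ h2]

/-- The inner factor of a maximal Blaschke product is a maximal Blaschke product. -/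
theorem main (A B C : ℂ → ℂ) (hBd : DifferentiableOn ℂ B (ball 0 1)) (hB1 : ∀ z ∈ ball (0:ℂ) 1, ‖B z‖ ≤ 1)
    (hCd : DifferentiableOn ℂ C (ball 0 1)) (hC : ∀ z ∈ ball (0:ℂ) 1, ‖C z‖ < 1)
    (hA : ∀ z ∈ ball (0:ℂ) 1, A z = B (C z)) (hmax : IsMaxBlaschke A) : IsMaxBlaschke C := by
  obtain ⟨m, hm, g, hg, c, a, hc, ha, hAg⟩ := hmax
  have hgd := hg.1.1.1
  have hcc := unimod_conj_mul hc
  -- the new outer factor
  have hvle : ∀ z ∈ ball (0:ℂ) 1, ‖conj c * B z‖ ≤ 1 := fun z hz => by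
    rw [norm_mul, Complex.norm_conj, hc, one_mul]; exact hB1 z hz
  have hna : ‖-a‖ < 1 := by rw [norm_neg]; exact ha
  set B₁ : ℂ → ℂ := fun z => (conj c * B z - (-a)) / (1 - conj (-a) * (conj c * B z)) with hB₁
  have hB₁d : DifferentiableOn ℂ B₁ (ball 0 1) :=
    ((hBd.const_mul (conj c)).sub_const _).div (((hBd.const_mul (conj c)).const_mul (conj (-a))).const_sub 1)
      fun z hz => one_sub_ne' hna (hvle z hz)
  have hB₁le : ∀ z ∈ ball (0:ℂ) 1, ‖B₁ z‖ ≤ 1 := by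
    intro z hz
    have h1 := mob_id (-a) (conj c * B z)
    have h2 := one_sub_sq_pos hna
    have h3 : 0 ≤ 1 - ‖conj c * B z‖ ^ 2 := by nlinarith [hvle z hz, norm_nonneg (conj c * B z)]
    have h4 : 0 < ‖1 - conj (-a) * (conj c * B z)‖ := norm_pos_iff.2 (one_sub_ne' hna (hvle z hz))
    rw [hB₁]
    simp only
    rw [norm_div, div_le_one h4]
    have h5 : ‖conj c * B z - -a‖ ^ 2 ≤ ‖1 - conj (-a) * (conj c * B z)‖ ^ 2 := by
      have := mul_nonneg h2.le h3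
      linarith
    exact le_of_sq_le_sq h5 h4.le
  have hcomp : ∀ z ∈ ball (0:ℂ) 1, g z = B₁ (C z) := by
    intro z hz
    have h1 := hAg z hz
    rw [hA z hz] at h1
    have hd := one_sub_ne' ha (hg.2.1 z hz)
    have haa : 1 - conj a * a ≠ 0 := one_sub_ne' ha ha.le
    have h2 : conj c * B (C z) = (g z - a) / (1 - conj a * g z) := by
      rw [h1, ← mul_assoc, hcc, one_mul]
    rw [hB₁]
    simp only
    rw [h2, map_neg, sub_neg_eq_add, neg_mul, sub_neg_eq_add, alg1 _ _ _ hd, alg2 _ _ _ hd, alg3 _ _ _ hd haa]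
  -- derivatives
  have hpos := extremal_pos hm hg
  have hgne : iteratedDeriv (m 0 + 1) g 0 ≠ 0 := by
    intro h; rw [h] at hpos; simp at hpos
  obtain ⟨z₁, hz₁, hz₁ne⟩ := exists_ne_of_iteratedDeriv hgne
  have hgderiv : deriv g z₁ = deriv B₁ (C z₁) * deriv C z₁ := by
    have h1 : g =ᶠ[𝓝 z₁] B₁ ∘ C := by
      filter_upwards [isOpen_ball.mem_nhds hz₁] with w hw using hcomp w hw
    have hBat := hB₁d.differentiableAt (isOpen_ball.mem_nhds (mem_ball_zero_iff.2 (hC z₁ hz₁)))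
    have hCat := hCd.differentiableAt (isOpen_ball.mem_nhds hz₁)
    rw [h1.deriv_eq]
    exact (hBat.hasDerivAt.comp z₁ hCat.hasDerivAt).deriv
  rw [hgderiv] at hz₁ne
  have hB₁ne : deriv B₁ (C z₁) ≠ 0 := left_ne_zero_of_mul hz₁ne
  have hC'ne : deriv C z₁ ≠ 0 := right_ne_zero_of_mul hz₁ne
  have hB₁lt := strict_of_deriv_ne hB₁d hB₁le (mem_ball_zero_iff.2 (hC z₁ hz₁)) hB₁ne
  have hC'd : DifferentiableOn ℂ (deriv C) (ball 0 1) := hCd.deriv isOpen_ball
  have hfin : ∀ z ∈ ball (0:ℂ) 1, analyticOrderAt (deriv C) z ≠ ⊤ := fun z hz => order_ne_top hC'd hz₁ hC'ne hz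
  set mC : ℂ → ℕ := fun z => analyticOrderNatAt (deriv C) z with hmC
  have hmC' : ∀ z ∈ ball (0:ℂ) 1, analyticOrderAt (deriv C) z = mC z := fun z hz =>
    (Nat.cast_analyticOrderNatAt (hfin z hz)).symm
  set M := mC 0 with hM
  have hγ := ((analyticOrderAt_eq_nat_iff_iteratedDeriv_eq_zero (diffOn_analyticAt hC'd zero_mem_ball)).1
    (hmC' 0 zero_mem_ball)).2
  rw [← hM, ← iteratedDeriv_succ'] at hγ
  set γ := iteratedDeriv (M + 1) C 0 with hγd
  have hγn : 0 < ‖γ‖ := norm_pos_iff.2 hγ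
  set c₀ := C 0 with hc₀
  have hc₀1 : ‖c₀‖ < 1 := hC 0 zero_mem_ball
  have hc₀p := one_sub_sq_pos hc₀1
  set u : ℂ := conj γ / (‖γ‖ : ℂ) with hu
  have hun : ‖u‖ = 1 := by
    rw [hu, norm_div, Complex.norm_conj, Complex.norm_real, Real.norm_of_nonneg hγn.le, div_self hγn.ne']
  have hu0 : u ≠ 0 := norm_ne_zero_iff.1 (by rw [hun]; norm_num)
  have huu := unimod_conj_mul hun
  have huγ : u * γ = (‖γ‖ : ℂ) := by
    rw [hu, div_mul_eq_mul_div, Complex.conj_mul']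
    have e1 : (‖γ‖ : ℂ) ≠ 0 := by exact_mod_cast hγn.ne'
    field_simp
  set G : ℂ → ℂ := fun z => u * ((C z - c₀) / (1 - conj c₀ * C z)) with hG
  have hGderiv : ∀ z ∈ ball (0:ℂ) 1,
      HasDerivAt G (u * (((1 - ‖c₀‖ ^ 2 : ℝ) : ℂ) / (1 - conj c₀ * C z) ^ 2) * deriv C z) z := by
    intro z hz
    have h1 := (hCd.differentiableAt (isOpen_ball.mem_nhds hz)).hasDerivAt
    have h2 := ((h1.sub_const c₀).div ((h1.const_mul (conj c₀)).const_sub 1) (one_sub_ne hc₀1 (hC z hz))).const_mul u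
    have h3 : u * ((deriv C z * (1 - conj c₀ * C z) - (C z - c₀) * -(conj c₀ * deriv C z)) / (1 - conj c₀ * C z) ^ 2) =
        u * (((1 - ‖c₀‖ ^ 2 : ℝ) : ℂ) / (1 - conj c₀ * C z) ^ 2) * deriv C z := by
      have := Complex.conj_mul' c₀
      push_cast
      rw [← this]
      ring
    rw [h3] at h2
    exact h2
  have hGd : DifferentiableOn ℂ G (ball 0 1) := fun z hz => (hGderiv z hz).differentiableAt.differentiableWithinAt
  have hGlt : ∀ z ∈ ball (0:ℂ) 1, ‖G z‖ < 1 := fun z hz => by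
    rw [hG]
    simp only
    rw [norm_mul, hun, one_mul]
    exact mob_lt hc₀1 (hC z hz)
  set H : ℂ → ℂ := fun z => u * (((1 - ‖c₀‖ ^ 2 : ℝ) : ℂ) / (1 - conj c₀ * C z) ^ 2) with hH
  have hHd : DifferentiableOn ℂ H (ball 0 1) := by
    refine DifferentiableOn.const_mul ?_ u
    refine (differentiableOn_const _).div (((hCd.const_mul (conj c₀)).const_sub 1).pow 2) fun z hz => ?_
    exact pow_ne_zero _ (one_sub_ne hc₀1 (hC z hz))
  have hGev : ∀ z ∈ ball (0:ℂ) 1, deriv G =ᶠ[𝓝 z] H * deriv C := by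
    intro z hz
    filter_upwards [isOpen_ball.mem_nhds hz] with w hw using (hGderiv w hw).deriv
  have hGord : ∀ z ∈ ball (0:ℂ) 1, (mC z : ℕ∞) ≤ analyticOrderAt (deriv G) z := by
    intro z hz
    rw [analyticOrderAt_congr (hGev z hz), analyticOrderAt_mul (diffOn_analyticAt hHd hz) (diffOn_analyticAt hC'd hz),
      ← hmC' z hz]
    exact le_add_self
  have hG'd : DifferentiableOn ℂ (deriv G) (ball 0 1) := hGd.deriv isOpen_ball
  -- the leading derivative of G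
  have hGlead : iteratedDeriv (M + 1) G 0 = ((‖γ‖ / (1 - ‖c₀‖ ^ 2) : ℝ) : ℂ) := by
    have l1 := lead (diffOn_analyticAt hG'd zero_mem_ball) (hGord 0 zero_mem_ball)
    have l2 := lead (diffOn_analyticAt hC'd zero_mem_ball) (hmC' 0 zero_mem_ball).ge
    rw [← hM, ← iteratedDeriv_succ'] at l1 l2
    have hHc : Tendsto H (𝓝[≠] 0) (𝓝 (H 0)) :=
      (diffOn_analyticAt hHd zero_mem_ball).continuousAt.tendsto.mono_left nhdsWithin_le_nhds
    have l3 := hHc.mul l2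
    have l4 : iteratedDeriv (M + 1) G 0 / (M.factorial : ℂ) = H 0 * (iteratedDeriv (M + 1) C 0 / (M.factorial : ℂ)) := by
      refine tendsto_nhds_unique l1 (l3.congr' ?_)
      filter_upwards [nhdsWithin_le_nhds (hGev 0 zero_mem_ball)] with z hz
      rw [hz, Pi.mul_apply]
      ring
    have hfac : ((M.factorial : ℕ) : ℂ) ≠ 0 := by exact_mod_cast M.factorial_ne_zero
    have l5 : iteratedDeriv (M + 1) G 0 = H 0 * γ := by
      rw [hγd]
      field_simp at l4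
      exact l4
    have h6 : H 0 = u / ((1 - ‖c₀‖ ^ 2 : ℝ) : ℂ) := by
      rw [hH]
      simp only
      rw [← hc₀, Complex.conj_mul']
      have h7 : (1 : ℂ) - (‖c₀‖ : ℂ) ^ 2 = ((1 - ‖c₀‖ ^ 2 : ℝ) : ℂ) := by push_cast; ring
      rw [h7]
      have h8 : ((1 - ‖c₀‖ ^ 2 : ℝ) : ℂ) ≠ 0 := by exact_mod_cast hc₀p.ne'
      field_simp
    rw [l5, h6, div_mul_eq_mul_div, huγ]
    push_cast
    ring
  refine ⟨mC, ⟨C, ⟨hCd, 1, fun z hz => (hC z hz).le⟩, ?_, hmC'⟩, G, ⟨⟨⟨hGd, 1, fun z hz => (hGlt z hz).le⟩, hGord⟩,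
    fun z hz => (hGlt z hz).le, ?_⟩, conj u, -(u * c₀), ?_, ?_, ?_⟩
  · by_contra hcon
    push Not at hcon
    apply hC'ne
    have h3 : C =ᶠ[𝓝 z₁] fun _ => C z₁ := by
      filter_upwards [isOpen_ball.mem_nhds hz₁] with w hw using hcon w hw z₁ hz₁
    rw [h3.deriv_eq]
    simp
  · intro f hf hf1
    rw [← hM, hGlead, Complex.ofReal_re]
    by_cases h0 : iteratedDeriv (M + 1) f 0 = 0
    · rw [h0, Complex.zero_re]
      positivity
    · obtain ⟨z₂, hz₂, hz₂ne⟩ := exists_ne_of_iteratedDeriv h0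
      have hflt := strict_of_deriv_ne hf.1.1 hf1 hz₂ hz₂ne
      have h1 := core hm hg hB₁d hB₁lt hCd hC hcomp hf.1.1 hflt (hmC' 0 zero_mem_ball) (fun z hz => by
        rw [hmC' z hz]; exact hf.2 z hz)
      rw [← hM, ← hγd, ← hc₀] at h1
      rw [le_div_iff₀ hc₀p]
      calc (iteratedDeriv (M + 1) f 0).re * (1 - ‖c₀‖ ^ 2) ≤ ‖iteratedDeriv (M + 1) f 0‖ * (1 - ‖c₀‖ ^ 2) := by
            gcongr
            exact Complex.re_le_norm _
        _ ≤ ‖γ‖ := h1
  · rw [Complex.norm_conj, hun]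
  · rw [norm_neg, norm_mul, hun, one_mul]; exact hc₀1
  · intro z hz
    have hX := mob_lt hc₀1 (hC z hz)
    have hd := one_sub_ne hc₀1 (hC z hz)
    have hcc0 : 1 - conj c₀ * c₀ ≠ 0 := one_sub_ne hc₀1 hc₀1
    have e1 : G z - -(u * c₀) = u * (C z * (1 - conj c₀ * c₀) / (1 - conj c₀ * C z)) := by
      rw [hG]
      simp only
      rw [← alg1 _ _ _ hd]
      ring
    have e2 : 1 - conj (-(u * c₀)) * G z = (1 - conj c₀ * c₀) / (1 - conj c₀ * C z) := by
      rw [hG]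
      simp only
      rw [map_neg, map_mul]
      have h3 : 1 - -(conj u * conj c₀) * (u * ((C z - c₀) / (1 - conj c₀ * C z))) =
          1 + (conj u * u) * conj c₀ * ((C z - c₀) / (1 - conj c₀ * C z)) := by ring
      rw [h3, huu, one_mul, alg2 _ _ _ hd]
    rw [e1, e2, mul_div_assoc, alg3 _ _ _ hd hcc0, ← mul_assoc, huu, one_mul]

end Pool.Agent.N279.MBP
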